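import Pool.Agent.Helper760.Kolm
import Pool.Agent.Helper760.Profile

/-! Finite affine planes over a uniformly computable sequence of finite fields. -/

set_option autoImplicit false

namespace Pool.Agent.H872R3.LP

open Encodable
open Pool.Agent.Helper760.Kolm

/-- Uniformly computable sequences of finite fields: the elements of the `i`-th field `F i` are
numbered `0, …, size i - 1` by `num i`, and the number of elements as well as addition and
multiplication of the numbers of elements are computable, uniformly in `i`. -/
structure Fields where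
  F : ℕ → Type
  [fld : ∀ i, Field (F i)]
  size : ℕ → ℕ
  num : ∀ i, F i ≃ Fin (size i)
  add : ℕ → ℕ → ℕ → ℕ
  mul : ℕ → ℕ → ℕ → ℕ
  num_add : ∀ i a b, (num i (a + b) : ℕ) = add i (num i a) (num i b)
  num_mul : ∀ i a b, (num i (a * b) : ℕ) = mul i (num i a) (num i b)
  size_comp : Computable size
  add_comp : Computable (fun x : ℕ × ℕ × ℕ => add x.1 x.2.1 x.2.2)
  mul_comp : Computable (fun x : ℕ × ℕ × ℕ => mul x.1 x.2.1 x.2.2)

attribute [instance] Fields.fld

/-- The lines of the affine plane over `F`: `slope k c` is `{(a, b) | b = k a + c}` and `vert c` is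
`{(a, b) | a = c}`. -/
inductive Line (F : Type)
  | slope (k c : F) : Line F
  | vert (c : F) : Line F

/-- Incidence of a line and a point. -/
def Inc {F : Type} [Field F] : Line F → F × F → Prop
  | .slope k c, p => p.2 = k * p.1 + c
  | .vert c, p => p.1 = c

/-- The string of a line: `0` and the binary expansion of `⟨k, c⟩`, or `1` and the binary expansion
of `c`. -/
def Fields.lineS (A : Fields) (i : ℕ) : Line (A.F i) → List Bool
  | .slope k c => false :: Nat.bits (Nat.pair (A.num i k) (A.num i c))
  | .vert c => true :: Nat.bits (A.num i c)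

/-- The string of the point `(a, b)`: the binary expansion of `⟨a, b⟩`. -/
def Fields.pointS (A : Fields) (i : ℕ) (p : A.F i × A.F i) : List Bool :=
  Nat.bits (Nat.pair (A.num i p.1) (A.num i p.2))

theorem bits_rec (n : ℕ) (h : n ≠ 0) : Nat.bits n = decide (n % 2 = 1) :: Nat.bits (n / 2) := by
  have h1 : n = Nat.bit (decide (n % 2 = 1)) (n / 2) := by
    rw [Nat.bit_val]
    rcases Nat.mod_two_eq_zero_or_one n with h0 | h0
    · rw [h0]; simp; omega
    · rw [h0]; simp; omega
  conv_lhs => rw [h1]
  rw [Nat.bits_append_bit]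
  intro h0
  have : n = 1 := by omega
  rw [this]; rfl

theorem primrec_bits : Primrec Nat.bits := by
  have h : Primrec₂ (fun (_ : Unit) (n : ℕ) => Nat.bits n) := by
    refine Primrec.nat_strong_rec (fun (_ : Unit) (n : ℕ) => Nat.bits n)
      (g := fun (_ : Unit) (L : List (List Bool)) => if L.length = 0 then some [] else
        (L[L.length / 2]?).map fun l => decide (L.length % 2 = 1) :: l) ?_ ?_
    · refine Primrec.ite ?_ (Primrec.const _) ?_
      · exact Primrec.eq.comp (Primrec.list_length.comp Primrec.snd) (Primrec.const 0)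
      · refine Primrec.option_map ?_ ?_
        · exact Primrec.list_getElem?.comp Primrec.snd
            (Primrec.nat_div.comp (Primrec.list_length.comp Primrec.snd) (Primrec.const 2))
        · refine Primrec.list_cons.comp ?_ Primrec.snd
          exact (PrimrecPred.decide (Primrec.eq.comp (Primrec.nat_mod.comp
            (Primrec.list_length.comp (Primrec.snd.comp Primrec.fst)) (Primrec.const 2))
            (Primrec.const 1)))
    · intro _ n
      simp only [List.length_map, List.length_range]
      split_ifs with h0
      · subst h0; rfl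
      · have h1 : n / 2 < n := Nat.div_lt_self (Nat.pos_of_ne_zero h0) (by norm_num)
        rw [List.getElem?_map, List.getElem?_range h1, Option.map_some, Option.map_some,
          ← bits_rec n h0]
  exact h.comp (Primrec.const ()) Primrec.id

theorem length_bits (n : ℕ) : (Nat.bits n).length = Nat.size n := (Nat.size_eq_bits_len n)

section
variable (A : Fields)

/-- test for the pairs of strings of the incidences with lines `slope k c` -/
def sl (z : ℕ × (List Bool × List Bool)) : Bool :=
  decide (z.2.1 = false :: Nat.bits (Nat.pair (val z.2.1.tail).unpair.1 (val z.2.1.tail).unpair.2) ∧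
    z.2.2 = Nat.bits (Nat.pair (val z.2.2).unpair.1 (val z.2.2).unpair.2) ∧
    (val z.2.1.tail).unpair.1 < A.size z.1 ∧ (val z.2.1.tail).unpair.2 < A.size z.1 ∧
    (val z.2.2).unpair.1 < A.size z.1 ∧
    (val z.2.2).unpair.2 = A.add z.1 (A.mul z.1 (val z.2.1.tail).unpair.1 (val z.2.2).unpair.1)
      (val z.2.1.tail).unpair.2)

/-- test for the pairs of strings of the incidences with lines `vert c` -/
def ve (z : ℕ × (List Bool × List Bool)) : Bool :=
  decide (z.2.1 = true :: Nat.bits (val z.2.1.tail) ∧
    z.2.2 = Nat.bits (Nat.pair (val z.2.2).unpair.1 (val z.2.2).unpair.2) ∧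
    (val z.2.1.tail) < A.size z.1 ∧ (val z.2.2).unpair.2 < A.size z.1 ∧
    (val z.2.2).unpair.1 = val z.2.1.tail)

theorem comp_and {α : Type} [Primcodable α] {p q : α → Prop} [DecidablePred p] [DecidablePred q]
    (hp : Computable (fun a => decide (p a))) (hq : Computable (fun a => decide (q a))) :
    Computable (fun a => decide (p a ∧ q a)) :=
  ((Primrec.and.to_comp).comp hp hq).of_eq fun a => by simp

theorem comp_eq {α β : Type} [Primcodable α] [Primcodable β] [DecidableEq β] {f g : α → β}
    (hf : Computable f) (hg : Computable g) : Computable (fun a => decide (f a = g a)) :=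
  ((Primrec.eq (α := β)).decide.to_comp).comp hf hg

theorem comp_lt {α : Type} [Primcodable α] {f g : α → ℕ}
    (hf : Computable f) (hg : Computable g) : Computable (fun a => decide (f a < g a)) :=
  (Primrec.nat_lt.decide.to_comp).comp hf hg

theorem sl_comp : Computable (sl A) := by
  unfold sl
  have hx : Computable (fun z : ℕ × (List Bool × List Bool) => z.2.1) :=
    Computable.fst.comp Computable.snd
  have hy : Computable (fun z : ℕ × (List Bool × List Bool) => z.2.2) :=
    Computable.snd.comp Computable.snd
  have hu : Computable (fun z : ℕ × (List Bool × List Bool) => (val z.2.1.tail).unpair) :=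
    Computable.unpair.comp (primrec_val.to_comp.comp (Primrec.list_tail.to_comp.comp hx))
  have hv : Computable (fun z : ℕ × (List Bool × List Bool) => (val z.2.2).unpair) :=
    Computable.unpair.comp (primrec_val.to_comp.comp hy)
  have hs : Computable (fun z : ℕ × (List Bool × List Bool) => A.size z.1) :=
    A.size_comp.comp Computable.fst
  have hu1 := Computable.fst.comp hu
  have hu2 := Computable.snd.comp hu
  have hv1 := Computable.fst.comp hv
  have hv2 := Computable.snd.comp hv
  have hpair : ∀ {f g : ℕ × (List Bool × List Bool) → ℕ}, Computable f → Computable g →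
      Computable (fun z => Nat.bits (Nat.pair (f z) (g z))) := fun hf hg =>
    primrec_bits.to_comp.comp ((Primrec₂.natPair.to_comp).comp hf hg)
  have hm0 := hu1.pair hv1
  have hm1 := Computable.pair (Computable.fst (α := ℕ) (β := List Bool × List Bool)) hm0
  have hm := A.mul_comp.comp hm1
  have ha0 := hm.pair hu2
  have ha1 := Computable.pair (Computable.fst (α := ℕ) (β := List Bool × List Bool)) ha0
  have hadd := A.add_comp.comp ha1
  have hc : Computable (fun z : ℕ × (List Bool × List Bool) =>
      false :: Nat.bits (Nat.pair (val z.2.1.tail).unpair.1 (val z.2.1.tail).unpair.2)) :=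
    (Primrec.list_cons.to_comp).comp (Computable.const false) (hpair hu1 hu2)
  have k1 := comp_eq hx hc
  have k2 := comp_eq hy (hpair hv1 hv2)
  have k3 := comp_lt hu1 hs
  have k4 := comp_lt hu2 hs
  have k5 := comp_lt hv1 hs
  have k6 := comp_eq hv2 hadd
  have hand := Primrec.and.to_comp
  refine (hand.comp k1 (hand.comp k2 (hand.comp k3 (hand.comp k4 (hand.comp k5 k6))))).of_eq ?_
  intro z
  simp only [Bool.decide_and]

theorem ve_comp : Computable (ve A) := by
  unfold ve
  have hx : Computable (fun z : ℕ × (List Bool × List Bool) => z.2.1) :=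
    Computable.fst.comp Computable.snd
  have hy : Computable (fun z : ℕ × (List Bool × List Bool) => z.2.2) :=
    Computable.snd.comp Computable.snd
  have hu : Computable (fun z : ℕ × (List Bool × List Bool) => (val z.2.1.tail)) :=
    (primrec_val.to_comp.comp (Primrec.list_tail.to_comp.comp hx))
  have hv : Computable (fun z : ℕ × (List Bool × List Bool) => (val z.2.2).unpair) :=
    Computable.unpair.comp (primrec_val.to_comp.comp hy)
  have hs : Computable (fun z : ℕ × (List Bool × List Bool) => A.size z.1) :=
    A.size_comp.comp Computable.fst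
  have hv1 := Computable.fst.comp hv
  have hv2 := Computable.snd.comp hv
  have hpair : ∀ {f g : ℕ × (List Bool × List Bool) → ℕ}, Computable f → Computable g →
      Computable (fun z => Nat.bits (Nat.pair (f z) (g z))) := fun hf hg =>
    primrec_bits.to_comp.comp ((Primrec₂.natPair.to_comp).comp hf hg)
  have hc : Computable (fun z : ℕ × (List Bool × List Bool) =>
      true :: Nat.bits (val z.2.1.tail)) :=
    (Primrec.list_cons.to_comp).comp (Computable.const true) (primrec_bits.to_comp.comp hu)
  have k1 := comp_eq hx hc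
  have k2 := comp_eq hy (hpair hv1 hv2)
  have k3 := comp_lt hu hs
  have k4 := comp_lt hv2 hs
  have k5 := comp_eq hv1 hu
  have hand := Primrec.and.to_comp
  refine (hand.comp k1 (hand.comp k2 (hand.comp k3 (hand.comp k4 k5)))).of_eq ?_
  intro z
  simp only [Bool.decide_and]

/-- the pair of strings of the incidence given by `k, c, a` -/
def slE (i : ℕ) (t : A.F i × A.F i × A.F i) : List Bool × List Bool :=
  (A.lineS i (.slope t.1 t.2.1), A.pointS i (t.2.2, t.1 * t.2.2 + t.2.1))

/-- the pair of strings of the incidence given by `c, b` -/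
def veE (i : ℕ) (t : A.F i × A.F i) : List Bool × List Bool :=
  (A.lineS i (.vert t.1), A.pointS i (t.1, t.2))

theorem sl_iff (i : ℕ) (z : List Bool × List Bool) : sl A (i, z) = true ↔ ∃ t, z = slE A i t := by
  unfold sl
  rw [decide_eq_true_eq]
  constructor
  · rintro ⟨h1, h2, h3, h4, h5, h6⟩
    refine ⟨((A.num i).symm ⟨_, h3⟩, (A.num i).symm ⟨_, h4⟩, (A.num i).symm ⟨_, h5⟩), ?_⟩
    refine Prod.ext ?_ ?_
    · show z.1 = false :: Nat.bits (Nat.pair (A.num i ((A.num i).symm ⟨_, h3⟩))
        (A.num i ((A.num i).symm ⟨_, h4⟩)))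
      rw [Equiv.apply_symm_apply, Equiv.apply_symm_apply]
      exact h1
    · show z.2 = Nat.bits (Nat.pair (A.num i ((A.num i).symm ⟨_, h5⟩))
        (A.num i ((A.num i).symm ⟨_, h3⟩ * (A.num i).symm ⟨_, h5⟩ + (A.num i).symm ⟨_, h4⟩)))
      rw [A.num_add, A.num_mul, Equiv.apply_symm_apply, Equiv.apply_symm_apply,
        Equiv.apply_symm_apply]
      refine h2.trans ?_
      show _ = Nat.bits (Nat.pair (val z.2).unpair.1 (A.add i (A.mul i (val z.1.tail).unpair.1
        (val z.2).unpair.1) (val z.1.tail).unpair.2))
      rw [← h6]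
  · rintro ⟨⟨k, c, a⟩, rfl⟩
    have e1 : val (slE A i (k, c, a)).1.tail = Nat.pair (A.num i k) (A.num i c) := val_bits _
    have e2 : val (slE A i (k, c, a)).2 = Nat.pair (A.num i a) (A.num i (k * a + c)) := val_bits _
    rw [e1, e2]
    simp only [Nat.unpair_pair]
    refine ⟨rfl, rfl, (A.num i k).2, (A.num i c).2, (A.num i a).2, ?_⟩
    rw [A.num_add, A.num_mul]

theorem ve_iff (i : ℕ) (z : List Bool × List Bool) : ve A (i, z) = true ↔ ∃ t, z = veE A i t := by
  unfold ve
  rw [decide_eq_true_eq]
  constructor
  · rintro ⟨h1, h2, h3, h4, h5⟩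
    refine ⟨((A.num i).symm ⟨_, h3⟩, (A.num i).symm ⟨_, h4⟩), ?_⟩
    refine Prod.ext ?_ ?_
    · show z.1 = true :: Nat.bits (A.num i ((A.num i).symm ⟨_, h3⟩))
      rw [Equiv.apply_symm_apply]
      exact h1
    · show z.2 = Nat.bits (Nat.pair (A.num i ((A.num i).symm ⟨_, h3⟩))
        (A.num i ((A.num i).symm ⟨_, h4⟩)))
      rw [Equiv.apply_symm_apply, Equiv.apply_symm_apply]
      refine h2.trans ?_
      rw [h5]
  · rintro ⟨⟨c, b⟩, rfl⟩
    have e1 : val (veE A i (c, b)).1.tail = A.num i c := val_bits _
    have e2 : val (veE A i (c, b)).2 = Nat.pair (A.num i c) (A.num i b) := val_bits _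
    rw [e1, e2]
    rw [Nat.unpair_pair]
    exact ⟨rfl, rfl, (A.num i c).2, (A.num i b).2, rfl⟩

theorem bits_inj {a b : ℕ} (h : Nat.bits a = Nat.bits b) : a = b := by
  rw [← val_bits a, h, val_bits]

theorem pair_inj {a b a' b' : ℕ} (h : Nat.pair a b = Nat.pair a' b') : a = a' ∧ b = b' :=
  Nat.pair_eq_pair.1 h

theorem lineS_inj (i : ℕ) : Function.Injective (A.lineS i) := by
  intro l l' h
  cases l with
  | slope k c =>
    cases l' with
    | slope k' c' =>
      have h1 := pair_inj (bits_inj (List.cons.inj h).2)
      rw [(A.num i).injective (Fin.ext h1.1), (A.num i).injective (Fin.ext h1.2)]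
    | vert c' => exact absurd (List.cons.inj h).1 (by simp)
  | vert c =>
    cases l' with
    | slope k' c' => exact absurd (List.cons.inj h).1 (by simp)
    | vert c' =>
      have h1 := bits_inj (List.cons.inj h).2
      rw [(A.num i).injective (Fin.ext h1)]

theorem pointS_inj (i : ℕ) : Function.Injective (A.pointS i) := by
  intro p p' h
  have h1 := pair_inj (bits_inj h)
  exact Prod.ext ((A.num i).injective (Fin.ext h1.1)) ((A.num i).injective (Fin.ext h1.2))

theorem slE_inj (i : ℕ) : Function.Injective (slE A i) := by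
  rintro ⟨k, c, a⟩ ⟨k', c', a'⟩ h
  have h1 := lineS_inj A i (show A.lineS i (.slope k c) = A.lineS i (.slope k' c') from
    congrArg Prod.fst h)
  have h2 := pointS_inj A i (show A.pointS i (a, k * a + c) = A.pointS i (a', k' * a' + c') from
    congrArg Prod.snd h)
  have h3 : k = k' ∧ c = c' := by
    injection h1 with h1 h1'
    exact ⟨h1, h1'⟩
  have h4 : a = a' := congrArg Prod.fst h2
  rw [h3.1, h3.2, h4]

theorem veE_inj (i : ℕ) : Function.Injective (veE A i) := by
  rintro ⟨c, b⟩ ⟨c', b'⟩ h
  exact pointS_inj A i (show A.pointS i (c, b) = A.pointS i (c', b') from congrArg Prod.snd h)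

theorem inc_cases (i : ℕ) (l : Line (A.F i)) (p : A.F i × A.F i) (h : Inc l p) :
    (∃ t, (A.lineS i l, A.pointS i p) = slE A i t) ∨
      ∃ t, (A.lineS i l, A.pointS i p) = veE A i t := by
  obtain ⟨a, b⟩ := p
  cases l with
  | slope k c =>
    left
    have h' : b = k * a + c := h
    exact ⟨(k, c, a), by rw [h']; rfl⟩
  | vert c =>
    right
    have h' : a = c := h
    exact ⟨(c, b), by rw [h']; rfl⟩

instance (i : ℕ) : Fintype (A.F i) := Fintype.ofEquiv _ (A.num i).symm

theorem card_F (i : ℕ) : Fintype.card (A.F i) = A.size i := by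
  rw [Fintype.card_congr (A.num i), Fintype.card_fin]

end

end Pool.Agent.H872R3.LP
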