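import Pool.Agent.H872R3.LP.Search

/-! A rectangle of a covering as a string. -/

set_option autoImplicit false

namespace Pool.Agent.H872R3.LP

open Encodable
open Pool.Agent.Helper760.Kolm

/-- a pair of lists of strings as a string -/
def codeR (R : List S × List S) : S := Nat.bits (encode R)

/-- decoding -/
def decR (s : S) : List S × List S := (decode (α := List S × List S) (val s)).getD ([], [])

theorem decR_codeR (R : List S × List S) : decR (codeR R) = R := by
  unfold decR codeR
  rw [val_bits, encodek]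
  rfl

theorem primrec_codeR : Primrec codeR := primrec_bits.comp Primrec.encode

theorem primrec_decR : Primrec decR :=
  Primrec.option_getD.comp (Primrec.decode.comp primrec_val) (Primrec.const ([], []))

/-- element with a given number of a side of a rectangle -/
theorem K_side : ∃ c : ℕ, ∀ (R : List S × List S) (m : ℕ) (x : S),
    (R.1.length ≤ 2 ^ m → x ∈ R.1 → K x (codeR R) ≤ m + c) ∧
      (R.2.length ≤ 2 ^ m → x ∈ R.2 → K x (codeR R) ≤ m + c) := by
  have h1 : Partrec (fun y : Unit × S × S => (Part.ofOption ((decR y.2.2).1[val y.2.1]?) : Part S)) := by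
    refine Computable.ofOption (Primrec.to_comp ?_)
    exact Primrec.list_getElem?.comp (Primrec.fst.comp (primrec_decR.comp
      (Primrec.snd.comp Primrec.snd))) (primrec_val.comp (Primrec.fst.comp Primrec.snd))
  have h2 : Partrec (fun y : Unit × S × S => (Part.ofOption ((decR y.2.2).2[val y.2.1]?) : Part S)) := by
    refine Computable.ofOption (Primrec.to_comp ?_)
    exact Primrec.list_getElem?.comp (Primrec.snd.comp (primrec_decR.comp
      (Primrec.snd.comp Primrec.snd))) (primrec_val.comp (Primrec.fst.comp Primrec.snd))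
  obtain ⟨c1, hc1⟩ := K_param _ h1
  obtain ⟨c2, hc2⟩ := K_param _ h2
  refine ⟨c1 + c2, fun R m x => ⟨fun hl hx => ?_, fun hl hx => ?_⟩⟩
  · obtain ⟨i, hi, hix⟩ := List.getElem_of_mem hx
    obtain ⟨p, hp, hv⟩ := exists_val i m (lt_of_lt_of_le hi hl)
    have h := hc1 () p (codeR R) x (by
      simp only [decR_codeR, hv]
      rw [List.getElem?_eq_getElem hi, hix]
      exact Part.mem_some _)
    rw [size_encode_unit] at h
    omega
  · obtain ⟨i, hi, hix⟩ := List.getElem_of_mem hx
    obtain ⟨p, hp, hv⟩ := exists_val i m (lt_of_lt_of_le hi hl)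
    have h := hc2 () p (codeR R) x (by
      simp only [decR_codeR, hv]
      rw [List.getElem?_eq_getElem hi, hix]
      exact Part.mem_some _)
    rw [size_encode_unit] at h
    omega

section
variable {ed : ℕ × (S × S) → Bool} (hed : Computable ed) {num : ℕ → ℕ} (hnum : Computable num)
  (hcard : ∀ i, ∃ E : Finset (S × S), (∀ z, z ∈ E ↔ ed (i, z) = true) ∧ E.card = num i)

include hed hnum hcard

theorem K_cov : ∃ c : ℕ, ∀ (i a b w : ℕ), (∃ C, Cov ed (i, a, b, w) C) → ∀ z : S × S,
    ed (i, z) = true → ∃ q' : S,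
      K q' () ≤ K i () + w + 2 * Nat.size (encode (a, b, w)) + 2 * Nat.size (K i ()) + c ∧
      K z.1 q' ≤ a + c ∧ K z.2 q' ≤ b + c := by
  obtain ⟨cov, hcov, hcov2⟩ := exists_cov hed hnum hcard
  have h1 : Partrec (fun y : (ℕ × ℕ × ℕ) × S × ℕ =>
      (cov (y.2.2, y.1)).bind fun C => (Part.ofOption (C[val y.2.1]?) : Part (List S × List S))) := by
    refine Partrec.bind (hcov.comp (Computable.pair (Computable.snd.comp Computable.snd)
      Computable.fst)) ?_
    refine Computable.ofOption (Primrec.to_comp ?_)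
    exact Primrec.list_getElem?.comp Primrec.snd
      (primrec_val.comp (Primrec.fst.comp (Primrec.snd.comp Primrec.fst)))
  obtain ⟨c1, hc1⟩ := K_param _ h1
  obtain ⟨c2, hc2⟩ := K_side
  obtain ⟨c3, hc3⟩ := K_chain0 (α := ℕ) (β := List S × List S)
  obtain ⟨c4, hc4⟩ := K_comp (fun (R : List S × List S) (_ : Unit) => codeR R)
    (primrec_codeR.comp Primrec.fst).to_comp.to₂ (fun _ : Unit => ()) (Computable.const ())
  refine ⟨c1 + c2 + c3 + c4 + 1, fun i a b w hex z hz => ?_⟩
  obtain ⟨C, hC, hC1, hC2, hC3⟩ := hcov2 _ hex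
  obtain ⟨R, hR, hR1, hR2⟩ := hC3 z hz
  obtain ⟨hRa, hRb⟩ := hC2 R hR
  obtain ⟨j, hj, hjR⟩ := List.getElem_of_mem hR
  obtain ⟨p, hp, hv⟩ := exists_val j w (lt_of_lt_of_le hj hC1)
  have e1 := hc1 (a, b, w) p i R (by
    simp only [Part.mem_bind_iff]
    refine ⟨C, hC, ?_⟩
    rw [hv, List.getElem?_eq_getElem hj, hjR]
    exact Part.mem_some _)
  have e2 := hc3 i R
  have e3 : K (codeR R) () ≤ K R () + c4 := hc4 R ()
  have e4 := (hc2 R (a + 1) z.1).1 hRa hR1
  have e5 := (hc2 R (b + 1) z.2).2 hRb hR2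
  refine ⟨codeR R, ?_, ?_, ?_⟩
  · omega
  · omega
  · omega

end

end Pool.Agent.H872R3.LP
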