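import Mathlib

/-! Greedy covering by translates. -/

set_option autoImplicit false

namespace Pool.Agent.H872R3.LP

section
variable {ε Γ : Type} [DecidableEq ε] [Fintype Γ] {E : Finset ε} {act : Γ → ε → ε}
  (hinj : ∀ g, ∀ r ∈ E, ∀ r' ∈ E, act g r = act g r' → r = r')
  (htr : ∀ r ∈ E, ∀ u ∈ E, ∃ g, act g r = u)
  {R : Finset ε} (hR : R ⊆ E) {T : ℕ} (hT : Fintype.card Γ ≤ T * R.card)

include hinj htr hR hT

theorem step (U : Finset ε) (hU : U ⊆ E) (hne : U.Nonempty) (hRne : R.Nonempty) :
    ∃ g, U.card ≤ T * (U ∩ R.image (act g)).card := by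
  classical
  obtain ⟨u0, hu0⟩ := hne
  obtain ⟨r0, hr0⟩ := hRne
  obtain ⟨g0, -⟩ := htr r0 (hR hr0) u0 (hU hu0)
  by_contra hcon
  push Not at hcon
  have h2 : ∀ g, ((R ×ˢ U).filter (fun p => act g p.1 = p.2)).card ≤
      (U ∩ R.image (act g)).card := by
    intro g
    refine Finset.card_le_card_of_injOn (fun p => p.2) ?_ ?_
    · intro p hp
      have hp' := Finset.mem_filter.1 (Finset.mem_coe.1 hp)
      have hp'' := Finset.mem_product.1 hp'.1
      refine Finset.mem_coe.2 (Finset.mem_inter.2 ⟨hp''.2, Finset.mem_image.2 ⟨p.1, hp''.1, hp'.2⟩⟩)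
    · intro p hp q hq hpq
      have hp' := Finset.mem_filter.1 (Finset.mem_coe.1 hp)
      have hq' := Finset.mem_filter.1 (Finset.mem_coe.1 hq)
      have hp'' := Finset.mem_product.1 hp'.1
      have hq'' := Finset.mem_product.1 hq'.1
      have hpq' : p.2 = q.2 := hpq
      refine Prod.ext (hinj g _ (hR hp''.1) _ (hR hq''.1) ?_) hpq'
      rw [hp'.2, hq'.2, hpq']
  have h1 : R.card * U.card ≤ ∑ g, (U ∩ R.image (act g)).card := by
    calc R.card * U.card = (R ×ˢ U).card := (Finset.card_product _ _).symm
      _ = ∑ p ∈ R ×ˢ U, 1 := by simp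
      _ ≤ ∑ p ∈ R ×ˢ U, ((Finset.univ : Finset Γ).filter (fun g => act g p.1 = p.2)).card := by
        refine Finset.sum_le_sum fun p hp => ?_
        have hp' := Finset.mem_product.1 hp
        obtain ⟨g, hg⟩ := htr p.1 (hR hp'.1) p.2 (hU hp'.2)
        exact Finset.card_pos.2 ⟨g, Finset.mem_filter.2 ⟨Finset.mem_univ _, hg⟩⟩
      _ = ∑ g, ((R ×ˢ U).filter (fun p => act g p.1 = p.2)).card := by
        simp only [Finset.card_filter]
        exact Finset.sum_comm
      _ ≤ _ := Finset.sum_le_sum fun g _ => h2 g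
  have h3 : T * ∑ g, (U ∩ R.image (act g)).card < Fintype.card Γ * U.card := by
    rw [Finset.mul_sum]
    calc ∑ g, T * (U ∩ R.image (act g)).card < ∑ _g : Γ, U.card :=
          Finset.sum_lt_sum_of_nonempty ⟨g0, Finset.mem_univ _⟩ fun g _ => hcon g
      _ = Fintype.card Γ * U.card := by simp [Finset.card_univ]
  have h4 : T * (R.card * U.card) ≤ T * ∑ g, (U ∩ R.image (act g)).card := Nat.mul_le_mul_left _ h1
  have h5 : Fintype.card Γ * U.card ≤ T * R.card * U.card := Nat.mul_le_mul_right _ hT
  have h6 : T * (R.card * U.card) = T * R.card * U.card := by ring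
  omega

theorem cover (hRne : R.Nonempty) (k : ℕ) : ∀ U : Finset ε, U ⊆ E → U.card < 2 ^ k →
    ∃ L : List Γ, L.length ≤ T * k ∧ ∀ u ∈ U, ∃ g ∈ L, u ∈ R.image (act g) := by
  classical
  induction k with
  | zero =>
    intro U hU hc
    have : U = ∅ := by
      apply Finset.card_eq_zero.1
      simpa using hc
    subst this
    exact ⟨[], by simp, by simp⟩
  | succ k ih =>
    intro U hU hc
    -- the part of `U` that is not covered
    let rest : List Γ → Finset ε := fun L => U.filter (fun u => ∀ g ∈ L, u ∉ R.image (act g))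
    have hrest : ∀ L, rest L ⊆ U := fun L => Finset.filter_subset _ _
    have key : ∀ j : ℕ, ∃ L : List Γ, L.length ≤ j ∧
        ((rest L).card < 2 ^ k ∨ T * (rest L).card + j * 2 ^ k ≤ T * U.card) := by
      intro j
      induction j with
      | zero =>
        refine ⟨[], le_rfl, Or.inr ?_⟩
        have : (rest []).card ≤ U.card := Finset.card_le_card (hrest _)
        have := Nat.mul_le_mul_left T this
        omega
      | succ j ihj =>
        obtain ⟨L, hL, h⟩ := ihj
        rcases h with h | h
        · exact ⟨L, by omega, Or.inl h⟩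
        by_cases hlt : (rest L).card < 2 ^ k
        · exact ⟨L, by omega, Or.inl hlt⟩
        push Not at hlt
        have hpos : 0 < (rest L).card := lt_of_lt_of_le (by positivity) hlt
        obtain ⟨g, hg⟩ := step hinj htr hR hT (rest L) ((hrest L).trans hU)
          (Finset.card_pos.1 hpos) hRne
        refine ⟨g :: L, by simpa using hL, Or.inr ?_⟩
        have hsub : rest (g :: L) ⊆ rest L \ (rest L ∩ R.image (act g)) := by
          intro u hu
          have hu' := Finset.mem_filter.1 hu
          refine Finset.mem_sdiff.2 ⟨Finset.mem_filter.2 ⟨hu'.1, fun g' hg' =>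
            hu'.2 g' (List.mem_cons_of_mem _ hg')⟩, fun hmem => ?_⟩
          exact hu'.2 g List.mem_cons_self (Finset.mem_inter.1 hmem).2
        have h1 := Finset.card_le_card hsub
        rw [Finset.card_sdiff_of_subset Finset.inter_subset_left] at h1
        have h2 : (rest L ∩ R.image (act g)).card ≤ (rest L).card :=
          Finset.card_le_card Finset.inter_subset_left
        have h3 : T * (rest (g :: L)).card + T * (rest L ∩ R.image (act g)).card ≤
            T * (rest L).card := by
          rw [← Nat.mul_add]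
          exact Nat.mul_le_mul_left _ (by omega)
        have h4 : 2 ^ k ≤ T * (rest L ∩ R.image (act g)).card := hlt.trans hg
        have h5 : (j + 1) * 2 ^ k = j * 2 ^ k + 2 ^ k := by ring
        omega
    obtain ⟨L, hL, h⟩ := key T
    have hT0 : 0 < T := by
      rcases Nat.eq_zero_or_pos T with h0 | h0
      · exfalso
        obtain ⟨r0, hr0⟩ := hRne
        obtain ⟨g0, -⟩ := htr r0 (hR hr0) r0 (hR hr0)
        have : 0 < Fintype.card Γ := Fintype.card_pos_iff.2 ⟨g0⟩
        rw [h0, zero_mul] at hT
        omega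
      · exact h0
    have hlt : (rest L).card < 2 ^ k := by
      rcases h with h | h
      · exact h
      · have h1 : T * U.card < T * 2 ^ (k + 1) := Nat.mul_lt_mul_of_pos_left hc hT0
        have h2 : T * 2 ^ (k + 1) = T * 2 ^ k + T * 2 ^ k := by rw [pow_succ]; ring
        have h3 : T * (rest L).card < T * 2 ^ k := by omega
        exact Nat.lt_of_mul_lt_mul_left h3
    obtain ⟨L', hL', h'⟩ := ih (rest L) ((hrest L).trans hU) hlt
    refine ⟨L ++ L', ?_, fun u hu => ?_⟩
    · rw [List.length_append, Nat.mul_succ]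
      omega
    · by_cases hcov : ∃ g ∈ L, u ∈ R.image (act g)
      · obtain ⟨g, hg, hgu⟩ := hcov
        exact ⟨g, List.mem_append_left _ hg, hgu⟩
      · push Not at hcov
        obtain ⟨g, hg, hgu⟩ := h' u (Finset.mem_filter.2 ⟨hu, hcov⟩)
        exact ⟨g, List.mem_append_right _ hg, hgu⟩

end

end Pool.Agent.H872R3.LP
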