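import Pool.Agent.H872R3.LP.Base

/-! Prime fields with about `2 ^ n` elements. -/

set_option autoImplicit false

namespace Pool.Agent.H872R3.LP

open Encodable

theorem exists_p (n : ℕ) : ∃ p, Nat.Prime p ∧ 2 ^ n < p ∧ p ≤ 2 * 2 ^ n := by
  obtain ⟨p, h1, h2, h3⟩ := Nat.exists_prime_lt_and_le_two_mul (2 ^ n) (by positivity)
  exact ⟨p, h1, h2, h3⟩

/-- the least prime above `2 ^ n` -/
noncomputable def pn (n : ℕ) : ℕ := by
  classical
  exact Nat.find (p := fun p => Nat.Prime p ∧ 2 ^ n < p) ⟨_, (exists_p n).choose_spec.1,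
    (exists_p n).choose_spec.2.1⟩

theorem pn_spec (n : ℕ) : Nat.Prime (pn n) ∧ 2 ^ n < pn n := by
  classical
  exact Nat.find_spec (p := fun p => Nat.Prime p ∧ 2 ^ n < p) ⟨_, (exists_p n).choose_spec.1,
    (exists_p n).choose_spec.2.1⟩

theorem pn_le (n : ℕ) : pn n ≤ 2 * 2 ^ n := by
  classical
  obtain ⟨p, h1, h2, h3⟩ := exists_p n
  exact (Nat.find_min' (p := fun p => Nat.Prime p ∧ 2 ^ n < p) ⟨_, (exists_p n).choose_spec.1,
    (exists_p n).choose_spec.2.1⟩ ⟨h1, h2⟩).trans h3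

theorem pn_min (n m : ℕ) (h : m < pn n) : ¬ (Nat.Prime m ∧ 2 ^ n < m) := by
  classical
  exact Nat.find_min (p := fun p => Nat.Prime p ∧ 2 ^ n < p) ⟨_, (exists_p n).choose_spec.1,
    (exists_p n).choose_spec.2.1⟩ h

theorem primrec_prime : PrimrecPred Nat.Prime := by
  have h1 : PrimrecRel (fun (m p : ℕ) => m ∣ p → m = 1) := by
    have e1 : PrimrecPred (fun x : ℕ × ℕ => x.2 % x.1 = 0) :=
      Primrec.eq.comp (Primrec.nat_mod.comp Primrec.snd Primrec.fst) (Primrec.const 0)
    have e2 : PrimrecPred (fun x : ℕ × ℕ => x.1 = 1) := Primrec.eq.comp Primrec.fst (Primrec.const 1)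
    refine (e1.not.or e2).of_eq ?_
    intro x
    simp only [Nat.dvd_iff_mod_eq_zero]
    tauto
  have h2 : PrimrecRel (fun (L : List ℕ) (p : ℕ) => ∀ m ∈ L, m ∣ p → m = 1) :=
    PrimrecRel.forall_mem_list h1
  have h3 : PrimrecPred (fun p : ℕ => ∀ m ∈ List.range p, m ∣ p → m = 1) :=
    h2.comp Primrec.list_range Primrec.id
  have h4 : PrimrecPred (fun p : ℕ => 2 ≤ p) := Primrec.nat_le.comp (Primrec.const 2) Primrec.id
  refine (h4.and h3).of_eq ?_
  intro p
  rw [Nat.prime_def_lt]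
  simp only [List.mem_range]

theorem comp_pn : Computable pn := by
  classical
  have h2 : Primrec (fun n : ℕ => 2 ^ n) :=
    (Primrec₂.unpaired'.1 Nat.Primrec.pow).comp (Primrec.const 2) Primrec.id
  have h1 : PrimrecPred (fun x : ℕ × ℕ => Nat.Prime x.2 ∧ 2 ^ x.1 < x.2) :=
    (primrec_prime.comp Primrec.snd).and (Primrec.nat_lt.comp (h2.comp Primrec.fst) Primrec.snd)
  have h3 : Computable₂ (fun (n m : ℕ) => decide (Nat.Prime m ∧ 2 ^ n < m)) :=
    (PrimrecPred.decide h1).to_comp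
  have h4 := Partrec.rfind (p := fun (n m : ℕ) => Part.some (decide (Nat.Prime m ∧ 2 ^ n < m)))
    h3.partrec₂
  refine Partrec.of_eq h4 (fun n => ?_)
  refine Part.eq_some_iff.2 (Nat.mem_rfind.2 ⟨?_, ?_⟩)
  · rw [Part.mem_some_iff]
    exact (decide_eq_true (pn_spec n)).symm
  · intro m hm
    rw [Part.mem_some_iff]
    exact (decide_eq_false (pn_min n m hm)).symm

instance pn_fact (n : ℕ) : Fact (Nat.Prime (pn n)) := ⟨(pn_spec n).1⟩

/-- prime fields -/
noncomputable def primeFields : Fields where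
  F n := ZMod (pn n)
  fld n := inferInstance
  size := pn
  num n := (ZMod.finEquiv (pn n)).symm.toEquiv
  add n a b := (a + b) % pn n
  mul n a b := (a * b) % pn n
  num_add n a b := by
    show (((ZMod.finEquiv (pn n)).symm (a + b) : Fin (pn n)) : ℕ) = _
    rw [map_add, Fin.val_add]
    rfl
  num_mul n a b := by
    show (((ZMod.finEquiv (pn n)).symm (a * b) : Fin (pn n)) : ℕ) = _
    rw [map_mul, Fin.val_mul]
    rfl
  size_comp := comp_pn
  add_comp := by
    have h : Computable₂ (fun a b : ℕ => a % b) := Primrec.nat_mod.to_comp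
    have h' : Computable₂ (fun a b : ℕ => a + b) := Primrec.nat_add.to_comp
    exact h.comp (h'.comp (Computable.fst.comp Computable.snd) (Computable.snd.comp Computable.snd))
      (comp_pn.comp Computable.fst)
  mul_comp := by
    have h : Computable₂ (fun a b : ℕ => a % b) := Primrec.nat_mod.to_comp
    have h' : Computable₂ (fun a b : ℕ => a * b) := Primrec.nat_mul.to_comp
    exact h.comp (h'.comp (Computable.fst.comp Computable.snd) (Computable.snd.comp Computable.snd))
      (comp_pn.comp Computable.fst)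

theorem exists_fields : ∃ A : Fields, ∀ n, 2 ^ n ≤ A.size n ∧ A.size n ≤ 2 * 2 ^ n :=
  ⟨primeFields, fun n => ⟨(pn_spec n).2.le, pn_le n⟩⟩

end Pool.Agent.H872R3.LP
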