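import Pool.Agent.H872R3.LP.Geom
import Pool.Agent.Helper760.EP.Base10

/-! All random edges have the same Gray–Wyner profile. -/

set_option autoImplicit false

namespace Pool.Agent.H872R3.LP

open Encodable
open Pool.Agent.Helper760.Kolm
open Pool.Agent.Helper760.EP (lam GWsub lam_facts)

/-- pairs of strings of incidences -/
def IsEdge (A : Fields) (i : ℕ) (z : S × S) : Prop := (∃ t, z = slE A i t) ∨ ∃ t, z = veE A i t

theorem sl_card (A : Fields) (i : ℕ) : ∃ E : Finset (S × S),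
    (∀ z, z ∈ E ↔ sl A (i, z) = true) ∧ E.card = A.size i ^ 3 := by
  classical
  refine ⟨Finset.univ.image (slE A i), fun z => ?_, ?_⟩
  · rw [sl_iff, Finset.mem_image]
    constructor
    · rintro ⟨t, -, rfl⟩
      exact ⟨t, rfl⟩
    · rintro ⟨t, rfl⟩
      exact ⟨t, Finset.mem_univ _, rfl⟩
  · rw [Finset.card_image_of_injective _ (slE_inj A i), Finset.card_univ, Fintype.card_prod,
      Fintype.card_prod, card_F]
    ring

theorem ve_card (A : Fields) (i : ℕ) : ∃ E : Finset (S × S),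
    (∀ z, z ∈ E ↔ ve A (i, z) = true) ∧ E.card = A.size i ^ 2 := by
  classical
  refine ⟨Finset.univ.image (veE A i), fun z => ?_, ?_⟩
  · rw [ve_iff, Finset.mem_image]
    constructor
    · rintro ⟨t, -, rfl⟩
      exact ⟨t, rfl⟩
    · rintro ⟨t, rfl⟩
      exact ⟨t, Finset.mem_univ _, rfl⟩
  · rw [Finset.card_image_of_injective _ (veE_inj A i), Finset.card_univ, Fintype.card_prod, card_F]
    ring

/-- upper bounds for the complexities of edges -/
theorem K_upper (A : Fields) : ∃ c : ℕ, ∀ (n h i : ℕ), A.size i ≤ 2 ^ (n + h) → K i () ≤ h →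
    (∀ t, K (slE A i t) () ≤ 3 * n + 6 * h + c) ∧ (∀ t, K (veE A i t) () ≤ 2 * n + 5 * h + c) := by
  obtain ⟨c1, h1⟩ := K_edge (sl_comp A)
  obtain ⟨c2, h2⟩ := K_edge (ve_comp A)
  obtain ⟨c3, h3⟩ := K_chain0 (α := ℕ) (β := S × S)
  refine ⟨c1 + c2 + c3, fun n h i hsz hi => ?_⟩
  have hs := size_le_self (K i ())
  constructor
  · intro t
    obtain ⟨E, hE, hc⟩ := sl_card A i
    have e1 := h1 i (3 * (n + h)) (fun G hG => by
      have : G ⊆ E := fun z hz => (hE z).2 (hG z hz)
      refine (Finset.card_le_card this).trans ?_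
      rw [hc]
      calc A.size i ^ 3 ≤ (2 ^ (n + h)) ^ 3 := Nat.pow_le_pow_left hsz 3
        _ = 2 ^ (3 * (n + h)) := by rw [← pow_mul, mul_comm]) (slE A i t)
      ((sl_iff A i _).2 ⟨t, rfl⟩)
    have e2 := h3 i (slE A i t)
    omega
  · intro t
    obtain ⟨E, hE, hc⟩ := ve_card A i
    have e1 := h2 i (2 * (n + h)) (fun G hG => by
      have : G ⊆ E := fun z hz => (hE z).2 (hG z hz)
      refine (Finset.card_le_card this).trans ?_
      rw [hc]
      calc A.size i ^ 2 ≤ (2 ^ (n + h)) ^ 2 := Nat.pow_le_pow_left hsz 2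
        _ = 2 ^ (2 * (n + h)) := by rw [← pow_mul, mul_comm]) (veE A i t)
      ((ve_iff A i _).2 ⟨t, rfl⟩)
    have e2 := h3 i (veE A i t)
    omega

theorem gw (A : Fields) : ∃ C : ℕ, ∀ (n h i : ℕ) (z z' : S × S), A.size i ≤ 2 ^ (n + h) →
    K i () ≤ h → IsEdge A i z → IsEdge A i z' → 3 * n ≤ K z () + h → 3 * n ≤ K z' () + h →
    GWsub (C * (h + lam n)) z.1 z.2 z'.1 z'.2 := by
  obtain ⟨l1, l2, l3, l4⟩ := lam_facts
  obtain ⟨c1, h1⟩ := K_upper A
  obtain ⟨c2, h2⟩ := K_rect (sl_comp A)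
  obtain ⟨c3, h3⟩ := K_cov (sl_comp A) (num := fun i => A.size i ^ 3)
    (((Primrec₂.unpaired'.1 Nat.Primrec.pow).to_comp.comp A.size_comp (Computable.const 3)))
    (sl_card A)
  obtain ⟨c4, h4⟩ := K_side
  obtain ⟨c5, h5⟩ := K_chain0 (α := ℕ × S) (β := S × S)
  obtain ⟨c6, h6⟩ := K_chain0 (α := ℕ) (β := ℕ × S)
  -- `K (i, q) i ≤ K q ()`
  obtain ⟨c7, h7⟩ := K_comp (fun (q : S) (i : ℕ) => (i, q))
    (Computable.pair Computable.snd Computable.fst).to₂ (fun _ : ℕ => ()) (Computable.const ())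
  -- `K z.1 q ≤ K z ()`
  obtain ⟨c8, h8⟩ := K_comp (fun (z : S × S) (_ : S) => z.1)
    (Computable.fst.comp Computable.fst).to₂ (fun _ : S => ()) (Computable.const ())
  obtain ⟨c9, h9⟩ := K_comp (fun (z : S × S) (_ : S) => z.2)
    (Computable.snd.comp Computable.fst).to₂ (fun _ : S => ()) (Computable.const ())
  -- the pair as a rectangle
  obtain ⟨c10, h10⟩ := K_comp (fun (z : S × S) (_ : Unit) => codeR ([z.1], [z.2])) (by
    refine Primrec.to_comp ?_
    refine primrec_codeR.comp (Primrec.pair ?_ ?_)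
    · exact Primrec.list_cons.comp (Primrec.fst.comp Primrec.fst) (Primrec.const [])
    · exact Primrec.list_cons.comp (Primrec.snd.comp Primrec.fst) (Primrec.const []))
    (fun _ : Unit => ()) (Computable.const ())
  obtain ⟨D, hD⟩ : ∃ D, D = c1 + c2 + c3 + c4 + c5 + c6 + c7 + c8 + c9 + c10 + 1 := ⟨_, rfl⟩
  refine ⟨2000 * D, fun n h i z z' hsz hi hz hz' hr hr' => ?_⟩
  obtain ⟨P, hP⟩ : ∃ P, P = D * (h + lam n) := ⟨_, rfl⟩
  have hl1 := l1 n
  have p1 : D ≤ P := by
    rw [hP]; exact Nat.le_mul_of_pos_right _ (by omega)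
  have p2 : h + lam n ≤ P := by
    rw [hP]; exact Nat.le_mul_of_pos_left _ (by omega)
  have p3 : 2000 * D * (h + lam n) = 2000 * P := by rw [hP]; ring
  rw [p3]
  obtain ⟨u1, u2⟩ := h1 n h i hsz hi
  -- upper bound for both kinds
  have up : ∀ z, IsEdge A i z → K z () ≤ 3 * n + 7 * P := by
    rintro z (⟨t, rfl⟩ | ⟨t, rfl⟩)
    · have := u1 t; omega
    · have := u2 t; omega
  -- the case of small `n`
  have small : n ≤ 10 * P → GWsub (2000 * P) z.1 z.2 z'.1 z'.2 := by
    intro hn q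
    have e1 := up z' hz'
    have e2 := h8 z' q
    have e3 := h9 z' q
    exact ⟨q, by omega, by omega, by omega⟩
  have vert_small : ∀ z, (∃ t, z = veE A i t) → 3 * n ≤ K z () + h → n ≤ 10 * P := by
    rintro z ⟨t, rfl⟩ hh
    have := u2 t
    omega
  rcases hz with ⟨t, ht⟩ | hv
  swap
  · exact small (vert_small z hv hr)
  rcases hz' with ⟨t', ht'⟩ | hv
  swap
  · exact small (vert_small z' hv hr')
  intro q
  by_cases hq : 3 * n ≤ K q ()
  · -- large `q`
    refine ⟨codeR ([z'.1], [z'.2]), ?_, ?_, ?_⟩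
    · have e1 := h10 z' ()
      have e2 := up z' (Or.inl ⟨t', ht'⟩)
      omega
    · have := (h4 ([z'.1], [z'.2]) 0 z'.1).1 (by simp) (by simp)
      omega
    · have := (h4 ([z'.1], [z'.2]) 0 z'.2).2 (by simp) (by simp)
      omega
  · classical
    push Not at hq
    obtain ⟨a, ha⟩ : ∃ a, a = K z.1 q := ⟨_, rfl⟩
    obtain ⟨b, hb⟩ : ∃ b, b = K z.2 q := ⟨_, rfl⟩
    have hab : a ≤ 3 * n + 8 * P := by
      have e1 := h8 z q
      have e2 := up z (Or.inl ⟨t, ht⟩)
      omega
    have hbb : b ≤ 3 * n + 8 * P := by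
      have e1 := h9 z q
      have e2 := up z (Or.inl ⟨t, ht⟩)
      omega
    -- the rectangle
    let X : Finset S := (Finset.univ.image (fun t => (slE A i t).1)).filter (fun x => K x q ≤ a)
    let Y : Finset S := (Finset.univ.image (fun t => (slE A i t).2)).filter (fun x => K x q ≤ b)
    have hX : X.card ≤ 2 ^ (a + 1) :=
      (card_le q a X (fun x hx => (Finset.mem_filter.1 hx).2)).le
    have hY : Y.card ≤ 2 ^ (b + 1) :=
      (card_le q b Y (fun x hx => (Finset.mem_filter.1 hx).2)).le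
    let R : Finset (A.F i × A.F i × A.F i) :=
      Finset.univ.filter (fun r => (slE A i r).1 ∈ X ∧ (slE A i r).2 ∈ Y)
    have hR : ∀ r, r ∈ R ↔ (slE A i r).1 ∈ X ∧ (slE A i r).2 ∈ Y := by
      intro r
      simp [R]
    have hRK : ∀ r, r ∈ R ↔ K (slE A i r).1 q ≤ a ∧ K (slE A i r).2 q ≤ b := by
      intro r
      rw [hR]
      constructor
      · rintro ⟨e1, e2⟩
        exact ⟨(Finset.mem_filter.1 e1).2, (Finset.mem_filter.1 e2).2⟩
      · rintro ⟨e1, e2⟩
        exact ⟨Finset.mem_filter.2 ⟨Finset.mem_image_of_mem _ (Finset.mem_univ _), e1⟩,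
          Finset.mem_filter.2 ⟨Finset.mem_image_of_mem _ (Finset.mem_univ _), e2⟩⟩
    have htR : t ∈ R := by
      rw [hRK, ← ht]
      exact ⟨ha ▸ le_rfl, hb ▸ le_rfl⟩
    have hRpos : 0 < R.card := Finset.card_pos.2 ⟨t, htR⟩
    obtain ⟨m, hm⟩ : ∃ m, Nat.size R.card = m + 1 := by
      refine ⟨Nat.size R.card - 1, ?_⟩
      have : 0 < Nat.size R.card := Nat.size_pos.2 hRpos
      omega
    have hm1 : R.card < 2 ^ (m + 1) := by
      rw [← hm]; exact Nat.lt_size_self _
    have hm2 : 2 ^ m ≤ R.card := Nat.lt_size.1 (by omega)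
    have hsz3 : A.size i ^ 3 ≤ 2 ^ (3 * (n + h)) := by
      calc A.size i ^ 3 ≤ (2 ^ (n + h)) ^ 3 := Nat.pow_le_pow_left hsz 3
        _ = 2 ^ (3 * (n + h)) := by rw [← pow_mul, mul_comm]
    have hm3 : m ≤ 3 * (n + h) := by
      have e1 : R.card ≤ A.size i ^ 3 := by
        have := Finset.card_le_univ R
        rwa [Fintype.card_prod, Fintype.card_prod, card_F, ← pow_three] at this
      exact (Nat.pow_le_pow_iff_right (by norm_num)).1 ((hm2.trans e1).trans hsz3)
    -- logarithms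
    have hsz : ∀ x j : ℕ, x ≤ 3 * n + j * P → Nat.size x ≤ (j + 4) * P := by
      intro x j hx
      have e1 := l2 _ _ hx
      have e2 := l3 (3 * n) (j * P)
      have e3 := l4 (j * P)
      have e4 : lam (3 * n) ≤ 3 * lam n := by
        have f1 := l3 n n
        have f2 := l3 (n + n) n
        have : 3 * n = n + n + n := by ring
        rw [this]; omega
      have e5 : lam x = Nat.size x + 1 := rfl
      have e6 : (j + 4) * P = j * P + 4 * P := by ring
      omega
    -- complexity of `z`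
    have k1 := h2 i a b (m + 1) q (by
      intro G hG
      have : G ⊆ R.image (slE A i) := by
        intro y hy
        obtain ⟨g1, g2, g3⟩ := hG y hy
        obtain ⟨r, rfl⟩ := (sl_iff A i y).1 g1
        exact Finset.mem_image_of_mem _ ((hRK r).2 ⟨g2, g3⟩)
      exact ((Finset.card_le_card this).trans Finset.card_image_le).trans hm1.le) z
      ((sl_iff A i z).2 ⟨t, ht⟩) ha.ge hb.ge
    have k2 := h5 (i, q) z
    have k3 := h6 i (i, q)
    have k4 : K (i, q) i ≤ K q () + c7 := h7 q i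
    have k5 := size_le_self (K i ())
    have k6 : K (i, q) () ≤ 3 * n + 4 * P := by omega
    have k7 := hsz _ 4 k6
    have k8 : Nat.size (encode (a, b)) ≤ 24 * P := by
      have e1 : encode (a, b) = Nat.pair a b := rfl
      rw [e1]
      have e2 := size_pair_le a b
      have e3 := hsz _ 8 hab
      have e4 := hsz _ 8 hbb
      omega
    have k9 : 3 * n ≤ K q () + m + 100 * P := by omega
    -- the covering
    obtain ⟨e, he⟩ : ∃ e, e = 3 * (n + h) - m := ⟨_, rfl⟩
    obtain ⟨k, hk⟩ : ∃ k, k = 3 * (n + h) + 1 := ⟨_, rfl⟩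
    obtain ⟨w, hw⟩ : ∃ w, w = e + Nat.size k := ⟨_, rfl⟩
    have hkP : Nat.size k ≤ 8 * P := hsz _ 4 (by omega)
    have hwP : w ≤ K q () + 111 * P := by omega
    have hcov : ∃ C, Cov (sl A) (i, a, b, w) C := by
      refine exists_translates A i X Y a b w k (2 ^ e) hX hY R hR ⟨t, htR⟩ ?_ ?_ ?_
      · refine hsz3.trans ?_
        calc 2 ^ (3 * (n + h)) = 2 ^ e * 2 ^ m := by
              rw [← pow_add]; congr 1; omega
          _ ≤ 2 ^ e * R.card := Nat.mul_le_mul_left _ hm2
      · refine lt_of_le_of_lt hsz3 ?_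
        rw [hk]
        exact Nat.pow_lt_pow_right (by norm_num) (by omega)
      · rw [hw, pow_add]
        exact Nat.mul_le_mul_left _ (Nat.lt_size_self k).le
    obtain ⟨q', q1, q2, q3⟩ := h3 i a b w hcov z' ((sl_iff A i z').2 ⟨t', ht'⟩)
    have k10 : Nat.size (encode (a, b, w)) ≤ 460 * P := by
      have e1 : encode (a, b, w) = Nat.pair a (Nat.pair b w) := rfl
      rw [e1]
      have e2 := size_pair_le a (Nat.pair b w)
      have e3 := size_pair_le b w
      have e4 := hsz _ 8 hab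
      have e5 := hsz _ 8 hbb
      have e6 := hsz w 111 (by omega)
      omega
    refine ⟨q', ?_, ?_, ?_⟩
    · omega
    · omega
    · omega

end Pool.Agent.H872R3.LP
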