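import Pool.Agent.H872R3.LP.Code
import Pool.Agent.H872R3.LP.Cover

/-! Translates of a rectangle in the plane. -/

set_option autoImplicit false

namespace Pool.Agent.H872R3.LP

open Encodable

variable (A : Fields) (i : ℕ)

/-- the collineation `(a, b) ↦ (a + s, b + t a + u)` on incidences -/
def act (g r : A.F i × A.F i × A.F i) : A.F i × A.F i × A.F i :=
  (r.1 + g.2.1, r.2.1 + g.2.2 - (r.1 + g.2.1) * g.1, r.2.2 + g.1)

theorem act_inj (g r r' : A.F i × A.F i × A.F i) (h : act A i g r = act A i g r') : r = r' := by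
  obtain ⟨k, c, a⟩ := r
  obtain ⟨k', c', a'⟩ := r'
  unfold act at h
  simp only [Prod.mk.injEq] at h
  obtain ⟨h1, h2, h3⟩ := h
  have e1 : k = k' := add_right_cancel h1
  have e3 : a = a' := add_right_cancel h3
  subst e1
  have e2 : c = c' := by
    have := sub_left_injective h2
    exact add_right_cancel this
  rw [e2, e3]

theorem act_tr (r u : A.F i × A.F i × A.F i) : ∃ g, act A i g r = u := by
  obtain ⟨k, c, a⟩ := r
  obtain ⟨k', c', a'⟩ := u
  refine ⟨(a' - a, k' - k, c' - c + k' * (a' - a)), ?_⟩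
  unfold act
  simp only [Prod.mk.injEq]
  refine ⟨by ring, by ring, by ring⟩

theorem exists_translates [DecidableEq (A.F i)] (X Y : Finset S) (a b w k T : ℕ)
    (hX : X.card ≤ 2 ^ (a + 1)) (hY : Y.card ≤ 2 ^ (b + 1))
    (R : Finset (A.F i × A.F i × A.F i))
    (hR : ∀ r, r ∈ R ↔ (slE A i r).1 ∈ X ∧ (slE A i r).2 ∈ Y) (hne : R.Nonempty)
    (hT : A.size i ^ 3 ≤ T * R.card) (hk : A.size i ^ 3 < 2 ^ k) (hw : T * k ≤ 2 ^ w) :
    ∃ C, Cov (sl A) (i, a, b, w) C := by
  classical
  have hcard : Fintype.card (A.F i × A.F i × A.F i) = A.size i ^ 3 := by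
    rw [Fintype.card_prod, Fintype.card_prod, card_F]; ring
  obtain ⟨L, hL1, hL2⟩ := cover (E := (Finset.univ : Finset (A.F i × A.F i × A.F i)))
    (act := act A i) (fun g r _ r' _ h => act_inj A i g r r' h) (fun r _ u _ => act_tr A i r u)
    (R := R) (Finset.subset_univ _) (T := T) (by rw [hcard]; exact hT) hne k Finset.univ
    subset_rfl (by rw [Finset.card_univ, hcard]; exact hk)
  -- lines and points of the rectangle
  let X0 : Finset (A.F i × A.F i) := Finset.univ.filter fun l => A.lineS i (.slope l.1 l.2) ∈ X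
  let Y0 : Finset (A.F i × A.F i) := Finset.univ.filter fun p => A.pointS i p ∈ Y
  have hX0 : X0.card ≤ X.card := by
    refine Finset.card_le_card_of_injOn (fun l => A.lineS i (.slope l.1 l.2)) ?_ ?_
    · intro l hl
      exact Finset.mem_coe.2 (Finset.mem_filter.1 (Finset.mem_coe.1 hl)).2
    · intro l _ l' _ h
      have h1 := lineS_inj A i h
      injection h1 with h1 h2
      exact Prod.ext h1 h2
  have hY0 : Y0.card ≤ Y.card := by
    refine Finset.card_le_card_of_injOn (fun p => A.pointS i p) ?_ ?_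
    · intro l hl
      exact Finset.mem_coe.2 (Finset.mem_filter.1 (Finset.mem_coe.1 hl)).2
    · intro p _ p' _ h
      exact pointS_inj A i h
  let tr : A.F i × A.F i × A.F i → List S × List S := fun g =>
    ((X0.image (fun l => A.lineS i (.slope (l.1 + g.2.1) (l.2 + g.2.2 - (l.1 + g.2.1) * g.1)))).toList,
      (Y0.image (fun p => A.pointS i (p.1 + g.1, p.2 + g.2.1 * p.1 + g.2.2))).toList)
  refine ⟨L.map tr, ?_, ?_, ?_⟩
  · rw [List.length_map]
    exact hL1.trans hw
  · intro Q hQ
    obtain ⟨g, hg, rfl⟩ := List.mem_map.1 hQ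
    constructor
    · show ((X0.image _).toList).length ≤ 2 ^ (a + 1)
      rw [Finset.length_toList]
      exact Finset.card_image_le.trans (hX0.trans hX)
    · show ((Y0.image _).toList).length ≤ 2 ^ (b + 1)
      rw [Finset.length_toList]
      exact Finset.card_image_le.trans (hY0.trans hY)
  · intro z hz
    obtain ⟨u, rfl⟩ := (sl_iff A i z).1 hz
    obtain ⟨g, hg, hgu⟩ := hL2 u (Finset.mem_univ _)
    obtain ⟨r, hr, hru⟩ := Finset.mem_image.1 hgu
    refine ⟨tr g, List.mem_map.2 ⟨g, hg, rfl⟩, ?_, ?_⟩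
    · show _ ∈ (X0.image _).toList
      rw [Finset.mem_toList, Finset.mem_image]
      refine ⟨(r.1, r.2.1), Finset.mem_filter.2 ⟨Finset.mem_univ _, ((hR r).1 hr).1⟩, ?_⟩
      rw [← hru]
      rfl
    · show _ ∈ (Y0.image _).toList
      rw [Finset.mem_toList, Finset.mem_image]
      refine ⟨(r.2.2, r.1 * r.2.2 + r.2.1),
        Finset.mem_filter.2 ⟨Finset.mem_univ _, ((hR r).1 hr).2⟩, ?_⟩
      rw [← hru]
      show A.pointS i _ = A.pointS i _
      congr 1
      refine Prod.ext rfl ?_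
      show r.1 * r.2.2 + r.2.1 + g.2.1 * r.2.2 + g.2.2 =
        (r.1 + g.2.1) * (r.2.2 + g.1) + (r.2.1 + g.2.2 - (r.1 + g.2.1) * g.1)
      ring

end Pool.Agent.H872R3.LP
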