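import Pool.Agent.H872R3.LP.GW

/-! Extended profiles of random edges. -/

set_option autoImplicit false

namespace Pool.Agent.H872R3.LP

open Encodable
open Pool.Agent.Helper760.Kolm
open Pool.Agent.Helper760.EP (lam GWsub lam_facts OptPlain PairCode CU prof profK ap plain_K pair_K
  GW_E_K)

/-- profiles through the reference complexity -/
theorem prof_K (U : List Bool →. List Bool) (pr : List Bool → List Bool → List Bool)
    (hU : OptPlain U) (hpr : PairCode pr) : ∃ a : ℕ, (∀ s, ap a (CU U s) (K s ())) ∧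
      (∀ x y, ap a (CU U (pr x y)) (K (x, y) ())) ∧
      ∀ x y q i, |(prof U pr x y q i : ℝ) - (profK x y q i : ℝ)| ≤ a := by
  obtain ⟨a, ha⟩ := plain_K U hU
  obtain ⟨b, hb⟩ := pair_K pr hpr
  refine ⟨a + b, fun s => ?_, fun x y => ?_, ?_⟩
  · have := ha s
    unfold ap at *
    omega
  · have h1 := ha (pr x y)
    have h2 := (hb x y).1
    unfold ap at *
    omega
  · intro x y q i
    have hx := ha x
    have hy := ha y
    have hq := ha q
    have h3 := ha (pr x y)
    have h4 := ha (pr x q)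
    have h5 := ha (pr y q)
    have h6 := ha (pr x (pr y q))
    have k3 := (hb x y).1
    have k4 := (hb x q).1
    have k5 := (hb y q).1
    have k6 := (hb x y).2.2 q
    unfold ap at *
    have key : ∀ u v : ℕ, u ≤ v + (a + b) → v ≤ u + (a + b) →
        |((u : ℤ) : ℝ) - (v : ℝ)| ≤ (a + b : ℕ) := by
      intro u v h1 h2
      have h1' : (u : ℝ) ≤ v + (a + b : ℕ) := by exact_mod_cast h1
      have h2' : (v : ℝ) ≤ u + (a + b : ℕ) := by exact_mod_cast h2
      rw [abs_le]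
      constructor
      · push_cast at *; linarith
      · push_cast at *; linarith
    fin_cases i
    · exact key (CU U x) (K x ()) (by omega) (by omega)
    · exact key (CU U y) (K y ()) (by omega) (by omega)
    · exact key (CU U q) (K q ()) (by omega) (by omega)
    · exact key (CU U (pr x y)) (K (x, y) ()) (by omega) (by omega)
    · exact key (CU U (pr x q)) (K (x, q) ()) (by omega) (by omega)
    · exact key (CU U (pr y q)) (K (y, q) ()) (by omega) (by omega)
    · exact key (CU U (pr x (pr y q))) (K (x, y, q) ()) (by omega) (by omega)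

/-- lengths of the strings of an edge -/
theorem length_edge (A : Fields) (i M : ℕ) (hM : A.size i ≤ 2 ^ M) (z : S × S)
    (hz : IsEdge A i z) : z.1.length ≤ 2 * M + 1 ∧ z.2.length ≤ 2 * M + 1 := by
  have h1 : ∀ x : A.F i, Nat.size (A.num i x) ≤ M := fun x =>
    Nat.size_le.2 (lt_of_lt_of_le (A.num i x).2 hM)
  have h2 : ∀ x y : A.F i, (Nat.bits (Nat.pair (A.num i x) (A.num i y))).length ≤ 2 * M := by
    intro x y
    rw [length_bits]
    have e1 := size_pair_le (A.num i x) (A.num i y)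
    have e2 := h1 x
    have e3 := h1 y
    omega
  rcases hz with ⟨t, rfl⟩ | ⟨t, rfl⟩
  · constructor
    · show (Nat.bits (Nat.pair (A.num i t.1) (A.num i t.2.1))).length + 1 ≤ 2 * M + 1
      have := h2 t.1 t.2.1
      omega
    · have := h2 t.2.2 (t.1 * t.2.2 + t.2.1)
      exact this.trans (Nat.le_succ _)
  · constructor
    · show (Nat.bits (A.num i t.1)).length + 1 ≤ 2 * M + 1
      rw [length_bits]
      have := h1 t.1
      omega
    · exact (h2 t.1 t.2).trans (Nat.le_succ _)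

/-- code of a number as a string -/
theorem K_bits : ∃ c : ℕ, ∀ i : ℕ, K i () ≤ K (Nat.bits i) () + c := by
  obtain ⟨c, hc⟩ := K_comp (fun (s : S) (_ : Unit) => val s)
    (primrec_val.comp Primrec.fst).to_comp.to₂ (fun _ : Unit => ()) (Computable.const ())
  refine ⟨c, fun i => ?_⟩
  have := hc (Nat.bits i) ()
  rwa [val_bits] at this

/-- the field has about `2 ^ n` elements -/
theorem size_bound (A : Fields) (i n : ℕ) (x : ℝ) (_hx : 0 ≤ x)
    (h : |Real.logb 2 (A.size i) - n| ≤ x) (k : ℕ) (hk : x ≤ k) : A.size i ≤ 2 ^ (n + k) := by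
  have hpos : 0 < A.size i := by
    rw [← card_F]
    exact Fintype.card_pos_iff.2 ⟨0⟩
  have h1 : Real.logb 2 (A.size i) ≤ (n + k : ℕ) := by
    have := (abs_le.1 h).2
    push_cast
    linarith
  have h2 : (A.size i : ℝ) ≤ 2 ^ ((n + k : ℕ) : ℝ) :=
    (Real.logb_le_iff_le_rpow (by norm_num) (by exact_mod_cast hpos)).1 h1
  rw [Real.rpow_natCast] at h2
  exact_mod_cast h2

/-- Random edges of planes over fields with about `2 ^ n` elements: transfer of profiles. -/
theorem main (U : List Bool →. List Bool) (pr : List Bool → List Bool → List Bool)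
    (hU : OptPlain U) (hpr : PairCode pr) (A : Fields) (c : ℝ) (hc : 0 < c) :
    ∃ c' : ℝ, 0 < c' ∧ ∀ (n i : ℕ), 2 ≤ n → (CU U (Nat.bits i) : ℝ) ≤ c * Real.logb 2 n →
      |Real.logb 2 (A.size i) - n| ≤ c * Real.logb 2 n →
      ∀ z z' : S × S, IsEdge A i z → IsEdge A i z' →
        3 * n - c * Real.logb 2 n ≤ CU U (pr z.1 z.2) →
        3 * n - c * Real.logb 2 n ≤ CU U (pr z'.1 z'.2) →
        ∀ q : S, ∃ q' : S, ∀ j, |(prof U pr z.1 z.2 q j : ℝ) - (prof U pr z'.1 z'.2 q' j : ℝ)| ≤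
          c' * Real.logb 2 (n + CU U q) := by
  obtain ⟨a, ha1, ha2, ha3⟩ := prof_K U pr hU hpr
  obtain ⟨b, hb⟩ := K_bits
  obtain ⟨C, hC⟩ := gw A
  obtain ⟨C1, hC1⟩ := GW_E_K
  obtain ⟨l1, l2, l3, l4⟩ := lam_facts
  -- constants
  obtain ⟨g, hg⟩ : ∃ g : ℝ, g = c + 1 + a + b := ⟨_, rfl⟩
  have hg0 : 0 < g := by rw [hg]; positivity
  refine ⟨C1 * (C * (g + 3) + (20 + a + 2 * g)) + 2 * a + 1, by positivity, ?_⟩
  intro n i hn hi hsz z z' hz hz' hr hr' q
  have hL1 := (Pool.Agent.Helper760.EP.J4308.partA_size_le n hn).2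
  have hLn := (Pool.Agent.Helper760.EP.J4308.partA_size_le n hn).1
  obtain ⟨X, hX⟩ : ∃ X, X = n + CU U q := ⟨_, rfl⟩
  have hX2 : 2 ≤ X := by omega
  obtain ⟨L, hL⟩ : ∃ L, L = Real.logb 2 (X : ℝ) := ⟨_, rfl⟩
  have hLX := (Pool.Agent.Helper760.EP.J4308.partA_size_le X hX2).1
  rw [← hL] at hLX
  have hLL : Real.logb 2 (n : ℝ) ≤ L := by
    rw [hL]
    exact Real.logb_le_logb_of_le (by norm_num) (by positivity) (by exact_mod_cast (by omega))
  have hL1' : 1 ≤ L := hL1.trans hLL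
  have hL' : Real.logb 2 (n + CU U q : ℝ) = L := by
    rw [hL, hX]; push_cast; rfl
  rw [hL']
  obtain ⟨h, hh⟩ : ∃ h, h = ⌈c * Real.logb 2 n⌉₊ + a + b := ⟨_, rfl⟩
  have hcl : 0 ≤ c * Real.logb 2 n := by positivity
  have hh1 : c * Real.logb 2 n ≤ ⌈c * Real.logb 2 n⌉₊ := Nat.le_ceil _
  have hh2 : (⌈c * Real.logb 2 n⌉₊ : ℝ) < c * Real.logb 2 n + 1 := Nat.ceil_lt_add_one hcl
  have hhL : (h : ℝ) ≤ g * L := by
    rw [hh, hg]; push_cast
    have e1 : c * Real.logb 2 n ≤ c * L := mul_le_mul_of_nonneg_left hLL hc.le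
    have e2 : (a : ℝ) ≤ a * L := le_mul_of_one_le_right (Nat.cast_nonneg _) hL1'
    have e3 : (b : ℝ) ≤ b * L := le_mul_of_one_le_right (Nat.cast_nonneg _) hL1'
    have e4 : (c + 1 + a + b) * L = c * L + L + a * L + b * L := by ring
    rw [e4]
    linarith
  have hcast : ∀ m : ℕ, (m : ℝ) ≤ c * Real.logb 2 n → m ≤ ⌈c * Real.logb 2 n⌉₊ := by
    intro m hm
    exact_mod_cast hm.trans hh1
  -- hypotheses of `gw`
  have k1 : K i () ≤ h := by
    have e1 := hb i
    have e2 := (ha1 (Nat.bits i)).2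
    have e3 := hcast _ hi
    omega
  have k2 : A.size i ≤ 2 ^ (n + h) :=
    size_bound A i n _ hcl hsz h (hh1.trans (by rw [hh]; push_cast; linarith))
  have k3 : ∀ z : S × S, 3 * n - c * Real.logb 2 n ≤ CU U (pr z.1 z.2) →
      3 * n ≤ K z () + h := by
    intro z hz
    have e1 : K (z.1, z.2) () = K z () := rfl
    have e2 := (ha2 z.1 z.2).1
    rw [e1] at e2
    have e3 : (CU U (pr z.1 z.2) : ℝ) ≤ K z () + a := by exact_mod_cast e2
    have e4 : ((3 * n : ℕ) : ℝ) ≤ ((K z () + h : ℕ) : ℝ) := by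
      rw [hh]; push_cast
      have : (0 : ℝ) ≤ b := Nat.cast_nonneg _
      linarith
    exact_mod_cast e4
  have g1 := hC n h i z z' k2 k1 hz hz' (k3 z hr) (k3 z' hr')
  have g2 := hC n h i z' z k2 k1 hz' hz (k3 z' hr') (k3 z hr)
  -- lengths
  obtain ⟨N1, hN1⟩ : ∃ N1, N1 = 2 * (n + h) + 1 := ⟨_, rfl⟩
  have m1 := length_edge A i (n + h) k2 z hz
  have m2 := length_edge A i (n + h) k2 z' hz'
  obtain ⟨q', hq', -⟩ := hC1 N1 (N1 + K q ()) (C * (h + lam n)) 0 z.1 z.2 z'.1 z'.2 (by omega)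
    (by omega) (by omega) (by omega) (by omega) g1 g2 q (by omega)
  refine ⟨q', fun j => ?_⟩
  obtain ⟨E, hE⟩ : ∃ E, E = C1 * (C * (h + lam n) + 0 + lam (N1 + K q ())) := ⟨_, rfl⟩
  obtain ⟨f1, f2⟩ := hq' j
  rw [← hE] at f1 f2
  have e1 := ha3 z.1 z.2 q j
  have e2 := ha3 z'.1 z'.2 q' j
  have f1' : (profK z'.1 z'.2 q' j : ℝ) ≤ profK z.1 z.2 q j + E := by exact_mod_cast f1
  have f2' : (profK z.1 z.2 q j : ℝ) ≤ profK z'.1 z'.2 q' j + E := by exact_mod_cast f2
  -- size of the error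
  have s1 : lam (N1 + K q ()) ≤ 10 + 2 * h + 2 * lam n + lam X + a := by
    have t1 := l3 N1 (K q ())
    have t2 := l3 (2 * (n + h)) 1
    have t3 : 2 * (n + h) = n + n + (h + h) := by ring
    have t4 := l3 (n + n) (h + h)
    have t5 := l3 n n
    have t6 := l4 (h + h)
    have t7 := l4 1
    have t8 := (ha1 q).2
    have t9 := l2 (K q ()) (X + a) (by omega)
    have t10 := l3 X a
    have t11 := l4 a
    rw [t3] at t2
    rw [hN1, t3] at t1 ⊢
    omega
  have s2 : (lam n : ℝ) ≤ 3 * L := by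
    unfold lam; push_cast
    linarith
  have s3 : (lam X : ℝ) ≤ 3 * L := by
    unfold lam; push_cast
    linarith
  have s4 : (lam (N1 + K q ()) : ℝ) ≤ (20 + a + 2 * g) * L := by
    have t1 : (lam (N1 + K q ()) : ℝ) ≤ 10 + 2 * h + 2 * lam n + lam X + a := by exact_mod_cast s1
    have t2 : (a : ℝ) ≤ a * L := le_mul_of_one_le_right (Nat.cast_nonneg _) hL1'
    have t3 : (20 + a + 2 * g) * L = 20 * L + a * L + 2 * (g * L) := by ring
    rw [t3]
    linarith
  have s5 : (E : ℝ) ≤ C1 * (C * (g + 3) + (20 + a + 2 * g)) * L := by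
    rw [hE]; push_cast
    have t1 : (C : ℝ) * (h + lam n) ≤ C * ((g + 3) * L) := by
      refine mul_le_mul_of_nonneg_left ?_ (Nat.cast_nonneg _)
      have : (g + 3) * L = g * L + 3 * L := by ring
      rw [this]; linarith
    calc (C1 : ℝ) * (C * (h + lam n) + 0 + lam (N1 + K q ()))
        ≤ C1 * (C * ((g + 3) * L) + (20 + a + 2 * g) * L) := by
          refine mul_le_mul_of_nonneg_left ?_ (Nat.cast_nonneg _)
          linarith
      _ = C1 * (C * (g + 3) + (20 + a + 2 * g)) * L := by ring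
  have s6 : (2 * a : ℝ) ≤ 2 * a * L := le_mul_of_one_le_right (by positivity) hL1'
  have s7 : (C1 * (C * (g + 3) + (20 + a + 2 * g)) + 2 * a + 1) * L =
      C1 * (C * (g + 3) + (20 + a + 2 * g)) * L + 2 * a * L + L := by ring
  rw [s7]
  rw [abs_le] at e1 e2 ⊢
  constructor
  · linarith [e1.1, e1.2, e2.1, e2.2]
  · linarith [e1.1, e1.2, e2.1, e2.2]

end Pool.Agent.H872R3.LP
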