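import Pool.Agent.H872R3.LP.Base

/-! Complexity of edges, and the search for coverings of the set of edges by rectangles. -/

set_option autoImplicit false

namespace Pool.Agent.H872R3.LP

open Encodable
open Pool.Agent.Helper760.Kolm

/-- strings -/
abbrev S : Type := List Bool

/-- enumeration of the edges -/
def enE (F : ℕ → ℕ × (S × S) → Option Bool) (x : Unit × ℕ) (t : ℕ) : Option (S × S) :=
  (decode (α := ℕ × (S × S)) t).bind fun y =>
    if F y.1 (x.2, y.2) = some true then some y.2 else none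

theorem primrec_enE {F : ℕ → ℕ × (S × S) → Option Bool} (hF : Primrec₂ F) : Primrec₂ (enE F) := by
  refine Primrec.option_bind (Primrec.decode.comp Primrec.snd) ?_
  refine Primrec.ite ?_ ?_ (Primrec.const none)
  · refine Primrec.eq.comp (hF.comp ?_ ?_) (Primrec.const (some true))
    · exact Primrec.fst.comp Primrec.snd
    · exact Primrec.pair (Primrec.snd.comp (Primrec.fst.comp Primrec.fst))
        (Primrec.snd.comp Primrec.snd)
  · exact Primrec.option_some.comp (Primrec.snd.comp Primrec.snd)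

theorem mem_enE {F : ℕ → ℕ × (S × S) → Option Bool} (i : ℕ) (z : S × S) :
    (∃ t, enE F ((), i) t = some z) ↔ ∃ t, F t (i, z) = some true := by
  constructor
  · rintro ⟨t, ht⟩
    unfold enE at ht
    simp only [Option.bind_eq_some_iff] at ht
    obtain ⟨y, _, hy⟩ := ht
    split_ifs at hy with h
    cases hy
    exact ⟨_, h⟩
  · rintro ⟨t, ht⟩
    refine ⟨encode (t, z), ?_⟩
    unfold enE
    simp only [encodek, Option.bind_some]
    rw [if_pos ht]

/-- enumeration of the edges in a rectangle -/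
def enR (F : ℕ → ℕ × (S × S) → Option Bool) (x : (ℕ × ℕ) × (ℕ × S)) (t : ℕ) : Option (S × S) :=
  (decode (α := ℕ × (S × S)) t).bind fun y =>
    if F y.1 (x.2.1, y.2) = some true ∧ Kle y.1 x.1.1 y.2.1 x.2.2 ∧ Kle y.1 x.1.2 y.2.2 x.2.2
      then some y.2 else none

theorem primrec_enR {F : ℕ → ℕ × (S × S) → Option Bool} (hF : Primrec₂ F) : Primrec₂ (enR F) := by
  refine Primrec.option_bind (Primrec.decode.comp Primrec.snd) ?_
  have hx : Primrec (fun a : (((ℕ × ℕ) × (ℕ × S)) × ℕ) × (ℕ × (S × S)) => a.1.1) :=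
    Primrec.fst.comp Primrec.fst
  have hy : Primrec (fun a : (((ℕ × ℕ) × (ℕ × S)) × ℕ) × (ℕ × (S × S)) => a.2) := Primrec.snd
  refine Primrec.ite (PrimrecPred.and ?_ (PrimrecPred.and ?_ ?_)) ?_ (Primrec.const none)
  · refine Primrec.eq.comp (hF.comp (Primrec.fst.comp hy) ?_) (Primrec.const (some true))
    exact Primrec.pair (Primrec.fst.comp (Primrec.snd.comp hx)) (Primrec.snd.comp hy)
  · exact primrec_Kle.comp (Primrec.pair (Primrec.fst.comp hy)
      (Primrec.pair (Primrec.fst.comp (Primrec.fst.comp hx))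
        (Primrec.pair (Primrec.fst.comp (Primrec.snd.comp hy))
          (Primrec.snd.comp (Primrec.snd.comp hx)))))
  · exact primrec_Kle.comp (Primrec.pair (Primrec.fst.comp hy)
      (Primrec.pair (Primrec.snd.comp (Primrec.fst.comp hx))
        (Primrec.pair (Primrec.snd.comp (Primrec.snd.comp hy))
          (Primrec.snd.comp (Primrec.snd.comp hx)))))
  · exact Primrec.option_some.comp (Primrec.snd.comp hy)

theorem mem_enR {F : ℕ → ℕ × (S × S) → Option Bool}
    (hmono : ∀ t t' a s, t ≤ t' → F t a = some s → F t' a = some s) (a b i : ℕ) (q : S)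
    (z : S × S) : (∃ t, enR F ((a, b), (i, q)) t = some z) ↔
      (∃ t, F t (i, z) = some true) ∧ K z.1 q ≤ a ∧ K z.2 q ≤ b := by
  constructor
  · rintro ⟨t, ht⟩
    unfold enR at ht
    simp only [Option.bind_eq_some_iff] at ht
    obtain ⟨y, _, hy⟩ := ht
    split_ifs at hy with h
    cases hy
    exact ⟨⟨_, h.1⟩, (K_le_iff _ _ _).2 ⟨_, h.2.1⟩, (K_le_iff _ _ _).2 ⟨_, h.2.2⟩⟩
  · rintro ⟨⟨t1, h1⟩, h2, h3⟩
    obtain ⟨t2, ht2⟩ := (K_le_iff _ _ _).1 h2
    obtain ⟨t3, ht3⟩ := (K_le_iff _ _ _).1 h3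
    refine ⟨encode (t1 + t2 + t3, z), ?_⟩
    unfold enR
    simp only [encodek, Option.bind_some]
    rw [if_pos ⟨hmono _ _ _ _ (by omega) h1, Kle_mono (by omega) ht2, Kle_mono (by omega) ht3⟩]

section
variable {ed : ℕ × (S × S) → Bool} (hed : Computable ed)

include hed

theorem K_edge : ∃ c : ℕ, ∀ (i m : ℕ),
    (∀ G : Finset (S × S), (∀ z ∈ G, ed (i, z) = true) → G.card ≤ 2 ^ m) →
      ∀ z, ed (i, z) = true → K z i ≤ m + c := by
  obtain ⟨F, hF, hF1, -⟩ := exists_stepped (f := fun x => Part.some (ed x)) hed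
  obtain ⟨c, hc⟩ := K_index (primrec_enE hF)
  have key : ∀ i z, (∃ t, enE F ((), i) t = some z) ↔ ed (i, z) = true := by
    intro i z
    rw [mem_enE, ← hF1, Part.mem_some_iff, eq_comm]
  refine ⟨c, fun i m hG z hz => ?_⟩
  have h := hc () i m (fun G hG' => hG G fun z hz => (key i z).1 (hG' z hz)) z ((key i z).2 hz)
  simpa using h

theorem K_rect : ∃ c : ℕ, ∀ (i a b m : ℕ) (q : S),
    (∀ G : Finset (S × S), (∀ z ∈ G, ed (i, z) = true ∧ K z.1 q ≤ a ∧ K z.2 q ≤ b) →
      G.card ≤ 2 ^ m) → ∀ z : S × S, ed (i, z) = true → K z.1 q ≤ a → K z.2 q ≤ b →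
        K z (i, q) ≤ m + 2 * Nat.size (encode (a, b)) + c := by
  obtain ⟨F, hF, hF1, hF2⟩ := exists_stepped (f := fun x => Part.some (ed x)) hed
  obtain ⟨c, hc⟩ := K_index (primrec_enR hF)
  have key : ∀ a b i q z, (∃ t, enR F ((a, b), (i, q)) t = some z) ↔
      ed (i, z) = true ∧ K z.1 q ≤ a ∧ K z.2 q ≤ b := by
    intro a b i q z
    rw [mem_enR hF2, ← hF1, Part.mem_some_iff, eq_comm]
  refine ⟨c, fun i a b m q hG z hz h1 h2 => ?_⟩
  exact hc (a, b) (i, q) m (fun G hG' => hG G fun z hz => (key a b i q z).1 (hG' z hz)) z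
    ((key a b i q z).2 ⟨hz, h1, h2⟩)

end

/-- coverings of the edges by at most `2 ^ w` rectangles with sides at most `2 ^ (a + 1)` and
`2 ^ (b + 1)` -/
def Cov (ed : ℕ × (S × S) → Bool) (g : ℕ × ℕ × ℕ × ℕ) (C : List (List S × List S)) : Prop :=
  C.length ≤ 2 ^ g.2.2.2 ∧ (∀ R ∈ C, R.1.length ≤ 2 ^ (g.2.1 + 1) ∧ R.2.length ≤ 2 ^ (g.2.2.1 + 1)) ∧
    ∀ z : S × S, ed (g.1, z) = true → ∃ R ∈ C, z.1 ∈ R.1 ∧ z.2 ∈ R.2

/-- the searched property -/
def PCov (F : ℕ → ℕ × (S × S) → Option Bool) (N : ℕ → ℕ → Option ℕ) (g : ℕ × ℕ × ℕ × ℕ)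
    (y : ℕ × List (List S × List S)) : Prop :=
  N y.1 g.1 = some (collect (enE F ((), g.1)) y.1).length ∧
  y.2.length ≤ 2 ^ g.2.2.2 ∧
  (∀ R ∈ y.2, R.1.length ≤ 2 ^ (g.2.1 + 1) ∧ R.2.length ≤ 2 ^ (g.2.2.1 + 1)) ∧
  ∀ z ∈ collect (enE F ((), g.1)) y.1, ∃ R ∈ y.2, z.1 ∈ R.1 ∧ z.2 ∈ R.2

theorem primrec_PCov {F : ℕ → ℕ × (S × S) → Option Bool} (hF : Primrec₂ F)
    {N : ℕ → ℕ → Option ℕ} (hN : Primrec₂ N) : PrimrecPred (fun x : (ℕ × ℕ × ℕ × ℕ) ×
      (ℕ × List (List S × List S)) => PCov F N x.1 x.2) := by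
  have hi : Primrec (fun x : (ℕ × ℕ × ℕ × ℕ) × (ℕ × List (List S × List S)) => x.1.1) :=
    Primrec.fst.comp Primrec.fst
  have ha : Primrec (fun x : (ℕ × ℕ × ℕ × ℕ) × (ℕ × List (List S × List S)) => x.1.2.1) :=
    Primrec.fst.comp (Primrec.snd.comp Primrec.fst)
  have hb : Primrec (fun x : (ℕ × ℕ × ℕ × ℕ) × (ℕ × List (List S × List S)) => x.1.2.2.1) :=
    Primrec.fst.comp (Primrec.snd.comp (Primrec.snd.comp Primrec.fst))
  have hw : Primrec (fun x : (ℕ × ℕ × ℕ × ℕ) × (ℕ × List (List S × List S)) => x.1.2.2.2) :=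
    Primrec.snd.comp (Primrec.snd.comp (Primrec.snd.comp Primrec.fst))
  have ht : Primrec (fun x : (ℕ × ℕ × ℕ × ℕ) × (ℕ × List (List S × List S)) => x.2.1) :=
    Primrec.fst.comp Primrec.snd
  have hC : Primrec (fun x : (ℕ × ℕ × ℕ × ℕ) × (ℕ × List (List S × List S)) => x.2.2) :=
    Primrec.snd.comp Primrec.snd
  have hcol : Primrec (fun x : (ℕ × ℕ × ℕ × ℕ) × (ℕ × List (List S × List S)) =>
      collect (enE F ((), x.1.1)) x.2.1) :=
    (primrec_collect (primrec_enE hF)).comp (Primrec.pair (Primrec.const ()) hi) ht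
  have h2 : Primrec (fun n : ℕ => 2 ^ n) :=
    (Primrec₂.unpaired'.1 Nat.Primrec.pow).comp (Primrec.const 2) Primrec.id
  refine PrimrecPred.and ?_ (PrimrecPred.and ?_ (PrimrecPred.and ?_ ?_))
  · exact Primrec.eq.comp (hN.comp ht hi)
      (Primrec.option_some.comp (Primrec.list_length.comp hcol))
  · exact Primrec.nat_le.comp (Primrec.list_length.comp hC) (h2.comp hw)
  · have hR : PrimrecRel (fun (R : List S × List S) (x : ℕ × ℕ) =>
        R.1.length ≤ 2 ^ (x.1 + 1) ∧ R.2.length ≤ 2 ^ (x.2 + 1)) := by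
      refine PrimrecPred.and ?_ ?_
      · exact Primrec.nat_le.comp (Primrec.list_length.comp (Primrec.fst.comp Primrec.fst))
          (h2.comp (Primrec.succ.comp (Primrec.fst.comp Primrec.snd)))
      · exact Primrec.nat_le.comp (Primrec.list_length.comp (Primrec.snd.comp Primrec.fst))
          (h2.comp (Primrec.succ.comp (Primrec.snd.comp Primrec.snd)))
    exact hR.forall_mem_list.comp hC (Primrec.pair ha hb)
  · have hm : PrimrecRel (fun (a : S) (L : List S) => a ∈ L) := primrec_mem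
    have hR : PrimrecRel (fun (R : List S × List S) (z : S × S) => z.1 ∈ R.1 ∧ z.2 ∈ R.2) := by
      refine PrimrecPred.and ?_ ?_
      · exact hm.comp (Primrec.fst.comp Primrec.snd) (Primrec.fst.comp Primrec.fst)
      · exact hm.comp (Primrec.snd.comp Primrec.snd) (Primrec.snd.comp Primrec.fst)
    have hR2 : PrimrecRel (fun (z : S × S) (C : List (List S × List S)) =>
        ∃ R ∈ C, z.1 ∈ R.1 ∧ z.2 ∈ R.2) := hR.exists_mem_list.comp Primrec.snd Primrec.fst
    exact hR2.forall_mem_list.comp hcol hC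

section
variable {ed : ℕ × (S × S) → Bool} (hed : Computable ed) {num : ℕ → ℕ} (hnum : Computable num)
  (hcard : ∀ i, ∃ E : Finset (S × S), (∀ z, z ∈ E ↔ ed (i, z) = true) ∧ E.card = num i)

include hed hnum hcard

theorem exists_cov : ∃ cov : (ℕ × ℕ × ℕ × ℕ) →. List (List S × List S), Partrec cov ∧
    ∀ g, (∃ C, Cov ed g C) → ∃ C ∈ cov g, Cov ed g C := by
  classical
  obtain ⟨F, hF, hF1, hF2⟩ := exists_stepped (f := fun x => Part.some (ed x)) hed
  obtain ⟨N, hN, hN1, hN2⟩ := exists_stepped (f := fun x => Part.some (num x)) hnum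
  have key : ∀ i z, (∃ t, enE F ((), i) t = some z) ↔ ed (i, z) = true := by
    intro i z
    rw [mem_enE, ← hF1, Part.mem_some_iff, eq_comm]
  have hp := primrec_PCov hF hN
  -- complete lists
  have full : ∀ i t, N t i = some (collect (enE F ((), i)) t).length → ∀ z, ed (i, z) = true →
      z ∈ collect (enE F ((), i)) t := by
    intro i t ht z hz
    obtain ⟨E, hE, hEc⟩ := hcard i
    have h1 : (collect (enE F ((), i)) t).length = num i := by
      have := (hN1 i _).2 ⟨t, ht⟩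
      exact Part.mem_some_iff.1 this
    have h2 : (collect (enE F ((), i)) t).toFinset ⊆ E := by
      intro z hz
      rw [List.mem_toFinset, mem_collect] at hz
      obtain ⟨j, _, hj⟩ := hz
      exact (hE z).2 ((key i z).1 ⟨j, hj⟩)
    have h3 : (collect (enE F ((), i)) t).toFinset = E := by
      apply Finset.eq_of_subset_of_card_le h2
      rw [List.toFinset_card_of_nodup (nodup_collect _ _), h1, hEc]
    rw [← List.mem_toFinset, h3]
    exact (hE z).2 hz
  have compl : ∀ i, ∃ t, N t i = some (collect (enE F ((), i)) t).length := by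
    intro i
    obtain ⟨E, hE, hEc⟩ := hcard i
    obtain ⟨t0, ht0⟩ := (hN1 i (num i)).1 (Part.mem_some _)
    have h1 : ∀ z : S × S, ∃ t, z ∈ E → enE F ((), i) t = some z := by
      intro z
      by_cases hz : z ∈ E
      · obtain ⟨t, ht⟩ := (key i z).2 ((hE z).1 hz)
        exact ⟨t, fun _ => ht⟩
      · exact ⟨0, fun h => absurd h hz⟩
    choose f hf using h1
    refine ⟨t0 + ∑ z ∈ E, (f z + 1), ?_⟩
    rw [hN2 _ _ _ _ (Nat.le_add_right _ _) ht0]
    congr 1
    have h2 : (collect (enE F ((), i)) (t0 + ∑ z ∈ E, (f z + 1))).toFinset = E := by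
      ext z
      rw [List.mem_toFinset, mem_collect]
      constructor
      · rintro ⟨j, _, hj⟩
        exact (hE z).2 ((key i z).1 ⟨j, hj⟩)
      · intro hz
        refine ⟨f z, ?_, hf z hz⟩
        have : f z + 1 ≤ ∑ z ∈ E, (f z + 1) :=
          Finset.single_le_sum (f := fun z => f z + 1) (fun _ _ => Nat.zero_le _) hz
        omega
    rw [← List.toFinset_card_of_nodup (nodup_collect _ _), h2, hEc]
  let f : (ℕ × ℕ × ℕ × ℕ) → ℕ → Option (List (List S × List S)) := fun g n =>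
    (decode (α := ℕ × List (List S × List S)) n).bind fun y =>
      if PCov F N g y then some y.2 else none
  have hf : Primrec₂ f := by
    refine Primrec.option_bind (Primrec.decode.comp Primrec.snd) ?_
    refine Primrec.ite ?_ ?_ (Primrec.const none)
    · exact hp.comp (Primrec.pair (Primrec.fst.comp Primrec.fst) Primrec.snd)
    · exact Primrec.option_some.comp (Primrec.snd.comp Primrec.snd)
  refine ⟨fun g => Nat.rfindOpt (f g), Partrec.rfindOpt hf.to_comp, ?_⟩
  rintro ⟨i, a, b, w⟩ ⟨C, hC1, hC2, hC3⟩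
  obtain ⟨t, ht⟩ := compl i
  have hP : PCov F N (i, a, b, w) (t, C) := by
    refine ⟨ht, hC1, hC2, fun z hz => hC3 z ?_⟩
    rw [mem_collect] at hz
    obtain ⟨j, _, hj⟩ := hz
    exact (key i z).1 ⟨j, hj⟩
  have hd : (Nat.rfindOpt (f (i, a, b, w))).Dom := by
    rw [Nat.rfindOpt_dom]
    refine ⟨encode (t, C), C, ?_⟩
    simp only [f, encodek, Option.bind_some]
    rw [if_pos hP]
    rfl
  obtain ⟨C', hC'⟩ := Part.dom_iff_mem.1 hd
  refine ⟨C', hC', ?_⟩
  obtain ⟨n, hn⟩ := Nat.rfindOpt_spec hC'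
  have hn' : f (i, a, b, w) n = some C' := hn
  simp only [f, Option.bind_eq_some_iff] at hn'
  obtain ⟨y, _, hy⟩ := hn'
  split_ifs at hy with h
  cases hy
  exact ⟨h.2.1, h.2.2.1, fun z hz => h.2.2.2 z (full i _ h.1 z hz)⟩

end

end Pool.Agent.H872R3.LP
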