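import Pool.Agent.H872R3.LP.Base
import Pool.Agent.Helper760.EP.Defs

/-! Random edges of the affine plane. -/

set_option autoImplicit false

namespace Pool.Agent.H872R3.LP

open Pool.Agent.Helper760.EP (CU prof)

/-- Edges of the incidence graph of the affine plane over the `i`-th field: incident pairs of a line
and a point. -/
structure Edge (A : Fields) (i : ℕ) where
  line : Line (A.F i)
  point : A.F i × A.F i
  inc : Inc line point

/-- The `i`-th field has about `2 ^ n` elements and is given by its number `i` of complexity
`O(log n)`; the constant is `c`. -/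
def About (U : List Bool →. List Bool) (A : Fields) (c : ℝ) (n i : ℕ) : Prop :=
  (CU U (Nat.bits i) : ℝ) ≤ c * Real.logb 2 n ∧ |Real.logb 2 (A.size i) - n| ≤ c * Real.logb 2 n

/-- Random edges, with the constant `c`: the complexity of the pair `(line, point)` is at least
`3 n - c log n`. -/
def Rand (U : List Bool →. List Bool) (pr : List Bool → List Bool → List Bool) (A : Fields)
    (c : ℝ) (n : ℕ) {i : ℕ} (e : Edge A i) : Prop :=
  3 * n - c * Real.logb 2 n ≤ CU U (pr (A.lineS i e.line) (A.pointS i e.point))

/-- The profile of the triple `(line, point, q)`. -/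
noncomputable def eprof (U : List Bool →. List Bool) (pr : List Bool → List Bool → List Bool)
    (A : Fields) {i : ℕ} (e : Edge A i) (q : List Bool) : Fin 7 → ℤ :=
  prof U pr (A.lineS i e.line) (A.pointS i e.point) q

/-- The profiles of `(e, q)` and `(e', q')` agree up to `δ` in all seven coordinates. -/
def Agree (U : List Bool →. List Bool) (pr : List Bool → List Bool → List Bool)
    (A : Fields) {i : ℕ} (δ : ℝ) (e : Edge A i) (q : List Bool) (e' : Edge A i) (q' : List Bool) :
    Prop :=
  ∀ j : Fin 7, |(eprof U pr A e q j : ℝ) - (eprof U pr A e' q' j : ℝ)| ≤ δ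

end Pool.Agent.H872R3.LP
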