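import Pool.Agent.H872R3.LP.Main

/-! Strings `q` of huge complexity. -/

set_option autoImplicit false

namespace Pool.Agent.H872R3.LP

open Encodable
open Pool.Agent.Helper760.Kolm
open Pool.Agent.Helper760.EP (lam GWsub lam_facts OptPlain PairCode CU prof profK ap)

/-- reading an object off the length of a shortest program -/
theorem K_readE : ∃ c : ℕ, ∀ (n : ℕ) (z : S × S) (q : S), 1 ≤ n →
    4 * n * encode z ≤ K q () → K q () < 4 * n * encode z + 4 * n →
    K (z, q) () ≤ K q () + 2 * Nat.size n + c := by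
  let φ : ℕ × List Bool × Unit →. ((S × S) × S) := fun y =>
    (M y.2.1 (encode y.2.2)).bind fun d =>
      (Part.ofOption (decode (α := S) d) : Part S).bind fun q =>
        (Part.ofOption (decode (α := S × S) (y.2.1.length / (4 * y.1))) : Part (S × S)).map
          fun z => (z, q)
  have hφ : Partrec φ := by
    refine Partrec.bind ?_ (Partrec.bind ?_ (Partrec.map ?_ ?_))
    · exact partrec_M.comp (Computable.fst.comp Computable.snd)
        (Computable.encode.comp (Computable.snd.comp Computable.snd))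
    · exact (Computable.decode.comp Computable.snd).ofOption
    · have g1 : Primrec (fun z : ((ℕ × List Bool × Unit) × ℕ) × S => z.1.1.1) :=
        Primrec.fst.comp (Primrec.fst.comp Primrec.fst)
      have g2 : Primrec (fun z : ((ℕ × List Bool × Unit) × ℕ) × S => z.1.1.2.1.length) :=
        Primrec.list_length.comp (Primrec.fst.comp (Primrec.snd.comp
          (Primrec.fst.comp Primrec.fst)))
      have g3 : Primrec (fun z : ((ℕ × List Bool × Unit) × ℕ) × S => 4 * z.1.1.1) :=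
        Primrec.nat_mul.comp (Primrec.const 4) g1
      have g4 : Primrec (fun z : ((ℕ × List Bool × Unit) × ℕ) × S =>
          z.1.1.2.1.length / (4 * z.1.1.1)) := Primrec.nat_div.comp g2 g3
      exact Computable.ofOption (Primrec.decode.comp g4).to_comp
    · exact (Computable.pair Computable.snd (Computable.snd.comp Computable.fst)).to₂
  obtain ⟨c, hc⟩ := K_param φ hφ
  refine ⟨c, ?_⟩
  intro n z q hn h1 h2
  obtain ⟨p, hp, hl⟩ := K_spec q ()
  have hdiv : p.length / (4 * n) = encode z := by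
    rw [hl]
    apply Nat.div_eq_of_lt_le
    · rw [mul_comm]; exact h1
    · rw [Nat.succ_mul, mul_comm (encode z)]
      exact h2
  have h := hc n p () (z, q) (by
    simp only [φ, Part.mem_bind_iff]
    refine ⟨encode q, hp, q, ?_, ?_⟩
    · simp
    · rw [hdiv]
      simp)
  rw [hl, encode_nat] at h
  exact h

theorem exists_rand_edge (A : Fields) (i t : ℕ) (ht : 2 ^ t ≤ A.size i ^ 3) :
    ∃ z, IsEdge A i z ∧ t ≤ K z () := by
  by_contra hcon
  push Not at hcon
  obtain ⟨E, hE, hc⟩ := sl_card A i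
  have h1 := card_lt () t E (by
    intro z hz
    exact hcon z (Or.inl ((sl_iff A i z).1 ((hE z).1 hz))))
  omega

theorem exists_rand_pair (A : Fields) (i t m : ℕ) (ht : 2 ^ t ≤ A.size i ^ 3) :
    ∃ (z : S × S) (r : S), IsEdge A i z ∧ r.length = m ∧ t + m ≤ K (z, r) () := by
  by_contra hcon
  push Not at hcon
  obtain ⟨E, hE, hc⟩ := sl_card A i
  have h1 := card_lt () (t + m) (E ×ˢ (allLen m).toFinset) (by
    rintro ⟨z, r⟩ hz
    rw [Finset.mem_product] at hz
    exact hcon z r (Or.inl ((sl_iff A i z).1 ((hE z).1 hz.1)))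
      ((mem_allLen m r).1 (List.mem_toFinset.1 hz.2)))
  rw [Finset.card_product, List.toFinset_card_of_nodup (nodup_allLen m), length_allLen, pow_add] at h1
  have := Nat.lt_of_mul_lt_mul_right h1
  omega

theorem log_small (G : ℝ) : ∃ n0 : ℕ, ∀ n : ℕ, n0 ≤ n → 2 ≤ n → G * Real.logb 2 n < n := by
  have hlog2 : 0 < Real.log 2 := Real.log_pos (by norm_num)
  have hden : (0 : ℝ) < |G| + 1 := by positivity
  have h1 := Real.isLittleO_log_id_atTop.bound (c := Real.log 2 / (|G| + 1)) (by positivity)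
  have h2 := (tendsto_natCast_atTop_atTop (R := ℝ)).eventually h1
  obtain ⟨n0, hn0⟩ := Filter.eventually_atTop.1 h2
  refine ⟨n0, fun n hn hn2 => ?_⟩
  have h3 := hn0 n hn
  have hL1 := (Pool.Agent.Helper760.EP.J4308.partA_size_le n hn2).2
  have h4 : Real.log n ≤ Real.log 2 / (|G| + 1) * n := by
    have h5 := (le_abs_self (Real.log n)).trans h3
    simpa using h5
  have h6 : Real.logb 2 n ≤ n / (|G| + 1) := by
    rw [Real.logb, div_le_iff₀ hlog2]
    calc Real.log n ≤ Real.log 2 / (|G| + 1) * n := h4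
      _ = n / (|G| + 1) * Real.log 2 := by ring
  have h7 : (|G| + 1) * Real.logb 2 n ≤ n := by
    rw [le_div_iff₀ hden] at h6
    linarith
  have h8 : G * Real.logb 2 n ≤ |G| * Real.logb 2 n :=
    mul_le_mul_of_nonneg_right (le_abs_self G) (by linarith)
  have h9 : (|G| + 1) * Real.logb 2 n = |G| * Real.logb 2 n + Real.logb 2 n := by ring
  linarith

theorem size_lower (A : Fields) (i n : ℕ) (x : ℝ)
    (h : |Real.logb 2 (A.size i) - n| ≤ x) (k : ℕ) (hk : x ≤ k) :
    2 ^ (3 * n - 3 * k) ≤ A.size i ^ 3 := by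
  have hpos : 0 < A.size i := by
    rw [← card_F]
    exact Fintype.card_pos_iff.2 ⟨0⟩
  rcases le_or_gt n k with h0 | h0
  · have : 3 * n - 3 * k = 0 := by omega
    rw [this, pow_zero]
    exact Nat.one_le_pow _ _ hpos
  have h1 : ((n - k : ℕ) : ℝ) ≤ Real.logb 2 (A.size i) := by
    have := (abs_le.1 h).1
    push_cast [h0.le]
    linarith
  have h2 : (2 : ℝ) ^ ((n - k : ℕ) : ℝ) ≤ (A.size i : ℝ) :=
    (Real.le_logb_iff_rpow_le (by norm_num) (by exact_mod_cast hpos)).1 h1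
  rw [Real.rpow_natCast] at h2
  have h3 : 2 ^ (n - k) ≤ A.size i := by exact_mod_cast h2
  calc 2 ^ (3 * n - 3 * k) = (2 ^ (n - k)) ^ 3 := by
        rw [← pow_mul]; congr 1; omega
    _ ≤ A.size i ^ 3 := Nat.pow_le_pow_left h3 3

/-- Strings `q` of huge complexity: there is no transfer with error `O(log n)`. -/
theorem unb (U : List Bool →. List Bool) (pr : List Bool → List Bool → List Bool)
    (hU : OptPlain U) (hpr : PairCode pr) (A : Fields) (c : ℝ) (hc : 0 < c) :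
    ∃ c₁ : ℝ, 0 < c₁ ∧ ∀ c' : ℝ, ∃ n0 : ℕ, ∀ n i : ℕ, n0 ≤ n → 2 ≤ n →
      (CU U (Nat.bits i) : ℝ) ≤ c * Real.logb 2 n →
      |Real.logb 2 (A.size i) - n| ≤ c * Real.logb 2 n →
      ∃ z z' : S × S, IsEdge A i z ∧ IsEdge A i z' ∧
        3 * n - c₁ * Real.logb 2 n ≤ CU U (pr z.1 z.2) ∧
        3 * n - c₁ * Real.logb 2 n ≤ CU U (pr z'.1 z'.2) ∧
        ∃ q : S, ∀ q' : S, ∃ j, c' * Real.logb 2 n <
          |(prof U pr z.1 z.2 q j : ℝ) - (prof U pr z'.1 z'.2 q' j : ℝ)| := by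
  obtain ⟨a, ha1, ha2, ha3⟩ := prof_K U pr hU hpr
  obtain ⟨b, hb⟩ := K_bits
  obtain ⟨c1, h1⟩ := K_upper A
  obtain ⟨c2, h2⟩ := K_readE
  obtain ⟨c3, h3⟩ := K_chain0 (α := S × S) (β := (S × S) × S)
  obtain ⟨c4, h4⟩ := K_comp (fun (r : S) (z : S × S) => (z, r))
    (Computable.pair Computable.snd Computable.fst).to₂ (fun _ : S × S => ()) (Computable.const ())
  obtain ⟨c5, h5⟩ := K_param (γ := Unit) (β := Unit) (α := S)
    (fun y => Part.some y.2.1) (Computable.fst.comp Computable.snd).partrec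
  obtain ⟨c6, h6⟩ := K_comp (fun (y : (S × S) × S) (_ : Unit) => (y.1.1, y.1.2, y.2))
    (Primrec.to_comp (Primrec.pair (Primrec.fst.comp (Primrec.fst.comp Primrec.fst))
      (Primrec.pair (Primrec.snd.comp (Primrec.fst.comp Primrec.fst))
        (Primrec.snd.comp Primrec.fst)))) (fun _ : Unit => ()) (Computable.const ())
  obtain ⟨c7, h7⟩ := K_comp (fun (y : S × S × S) (_ : Unit) => ((y.1, y.2.1), y.2.2))
    (Primrec.to_comp (Primrec.pair (Primrec.pair (Primrec.fst.comp Primrec.fst)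
      (Primrec.fst.comp (Primrec.snd.comp Primrec.fst)))
        (Primrec.snd.comp (Primrec.snd.comp Primrec.fst)))) (fun _ : Unit => ())
    (Computable.const ())
  obtain ⟨l1, l2, l3, l4⟩ := lam_facts
  obtain ⟨D, hD⟩ : ∃ D, D = a + b + c1 + c2 + c3 + c4 + c5 + c6 + c7 + 1 := ⟨_, rfl⟩
  obtain ⟨g, hg⟩ : ∃ g : ℝ, g = c + 1 + a + b := ⟨_, rfl⟩
  have hg0 : 0 < g := by rw [hg]; positivity
  have hD1 : (1 : ℝ) ≤ D := by rw [hD]; exact_mod_cast (by omega)
  refine ⟨100 * D * (g + 3), by positivity, fun c' => ?_⟩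
  obtain ⟨n0, hn0⟩ := log_small (2 * (|c'| + 1) + 100 * D * (g + 3))
  refine ⟨n0, fun n i hn hn2 hi hsz => ?_⟩
  have hbig := hn0 n hn hn2
  obtain ⟨L, hL⟩ : ∃ L, L = Real.logb 2 (n : ℝ) := ⟨_, rfl⟩
  obtain ⟨hLn, hL1⟩ := Pool.Agent.Helper760.EP.J4308.partA_size_le n hn2
  rw [← hL] at hLn hL1 hi hsz hbig ⊢
  have hcl : 0 ≤ c * L := by positivity
  have hh1 : c * L ≤ ⌈c * L⌉₊ := Nat.le_ceil _
  have hh2 : (⌈c * L⌉₊ : ℝ) < c * L + 1 := Nat.ceil_lt_add_one hcl
  obtain ⟨h, hh⟩ : ∃ h, h = ⌈c * L⌉₊ + a + b := ⟨_, rfl⟩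
  have hhL : (h : ℝ) ≤ g * L := by
    rw [hh, hg]; push_cast
    have e2 : (a : ℝ) ≤ a * L := le_mul_of_one_le_right (Nat.cast_nonneg _) hL1
    have e3 : (b : ℝ) ≤ b * L := le_mul_of_one_le_right (Nat.cast_nonneg _) hL1
    have e4 : (c + 1 + a + b) * L = c * L + L + a * L + b * L := by ring
    rw [e4]
    linarith
  obtain ⟨P, hP⟩ : ∃ P, P = D * (h + lam n) := ⟨_, rfl⟩
  have hPL : (P : ℝ) ≤ D * (g + 3) * L := by
    rw [hP]; push_cast
    have e1 : (lam n : ℝ) ≤ 3 * L := by unfold lam; push_cast; linarith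
    calc (D : ℝ) * (h + lam n) ≤ D * (g * L + 3 * L) :=
          mul_le_mul_of_nonneg_left (by linarith) (by linarith)
      _ = D * (g + 3) * L := by ring
  have hl1 := l1 n
  have p1 : D ≤ P := by
    rw [hP]; exact Nat.le_mul_of_pos_right _ (by omega)
  have p2 : h + lam n ≤ P := by
    rw [hP]; exact Nat.le_mul_of_pos_left _ (by omega)
  have k1 : K i () ≤ h := by
    have e1 := hb i
    have e2 := (ha1 (Nat.bits i)).2
    have e3 : CU U (Nat.bits i) ≤ ⌈c * L⌉₊ := by exact_mod_cast hi.trans hh1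
    omega
  have k2 : A.size i ≤ 2 ^ (n + h) :=
    size_bound A i n _ hcl hsz h (hh1.trans (by rw [hh]; push_cast; linarith))
  have k3 : 2 ^ (3 * n - 3 * h) ≤ A.size i ^ 3 :=
    size_lower A i n _ hsz h (hh1.trans (by rw [hh]; push_cast; linarith))
  obtain ⟨u1, u2⟩ := h1 n h i k2 k1
  have up : ∀ z, IsEdge A i z → K z () ≤ 3 * n + 7 * P := by
    rintro z (⟨t, rfl⟩ | ⟨t, rfl⟩)
    · have := u1 t; omega
    · have := u2 t; omega
  -- the distance
  obtain ⟨d, hd⟩ : ∃ d, d = ⌈c' * L⌉₊ := ⟨_, rfl⟩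
  have hd1 : c' * L ≤ d := by rw [hd]; exact Nat.le_ceil _
  have hd2 : (d : ℝ) ≤ (|c'| + 1) * L := by
    have e1 : c' * L ≤ |c'| * L := mul_le_mul_of_nonneg_right (le_abs_self _) (by linarith)
    have e2 : (⌈c' * L⌉₊ : ℝ) ≤ ⌈|c'| * L⌉₊ := by exact_mod_cast Nat.ceil_mono e1
    have e3 : (⌈|c'| * L⌉₊ : ℝ) < |c'| * L + 1 := Nat.ceil_lt_add_one (by positivity)
    rw [hd]
    have : (|c'| + 1) * L = |c'| * L + L := by ring
    linarith
  have hfin : 2 * d + 100 * P < n := by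
    have e1 : ((2 * d + 100 * P : ℕ) : ℝ) < n := by
      push_cast
      have e2 : (2 * (|c'| + 1) + 100 * D * (g + 3)) * L =
        2 * ((|c'| + 1) * L) + 100 * (D * (g + 3) * L) := by ring
      rw [e2] at hbig
      linarith
    exact_mod_cast e1
  -- the edges
  obtain ⟨z0, hz0, hz0K⟩ := exists_rand_edge A i _ k3
  obtain ⟨m, hm⟩ : ∃ m, m = 4 * n * encode z0 + 2 * n := ⟨_, rfl⟩
  obtain ⟨z1, r, hz1, hr, hz1r⟩ := exists_rand_pair A i _ m k3
  have f1 := h3 z1 (z1, r)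
  have f2 : K (z1, r) z1 ≤ K r () + c4 := h4 r z1
  have f3 := h5 () r () r (Part.mem_some _)
  rw [size_encode_unit, hr] at f3
  have f4 := up z1 hz1
  have f5 : Nat.size (K z1 ()) ≤ 11 * P := by
    have e1 := l2 _ _ f4
    have e2 := l3 (3 * n) (7 * P)
    have e3 := l4 (7 * P)
    have e4 : lam (3 * n) ≤ 3 * lam n := by
      have g1 := l3 n n
      have g2 := l3 (n + n) n
      have : 3 * n = n + n + n := by ring
      rw [this]; omega
    have e5 : lam (K z1 ()) = Nat.size (K z1 ()) + 1 := rfl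
    omega
  have f6 : Nat.size n ≤ P := by
    have e5 : lam n = Nat.size n + 1 := rfl
    omega
  have r1 : K z1 () + 30 * P ≥ 3 * n := by omega
  have r0 : K z0 () + 30 * P ≥ 3 * n := by omega
  have rand : ∀ z : S × S, K z () + 30 * P ≥ 3 * n →
      3 * n - 100 * D * (g + 3) * L ≤ CU U (pr z.1 z.2) := by
    intro z hz
    have e1 : K (z.1, z.2) () = K z () := rfl
    have e2 := (ha2 z.1 z.2).2
    rw [e1] at e2
    have e3 : 3 * n ≤ CU U (pr z.1 z.2) + 31 * P := by omega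
    have e4 : (3 * n : ℝ) ≤ CU U (pr z.1 z.2) + 31 * P := by exact_mod_cast e3
    have e5 : 100 * D * (g + 3) * L = 100 * (D * (g + 3) * L) := by ring
    have e6 : (0 : ℝ) ≤ P := Nat.cast_nonneg _
    rw [e5]
    linarith
  refine ⟨z1, z0, hz1, hz0, rand z1 r1, rand z0 r0, r, fun q' => ?_⟩
  by_contra hcon
  push Not at hcon
  -- coordinates
  have key : ∀ j, profK z1.1 z1.2 r j ≤ profK z0.1 z0.2 q' j + d + 2 * a ∧
      profK z0.1 z0.2 q' j ≤ profK z1.1 z1.2 r j + d + 2 * a := by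
    intro j
    have e1 := ha3 z1.1 z1.2 r j
    have e2 := ha3 z0.1 z0.2 q' j
    have e3 := (hcon j).trans hd1
    rw [abs_le] at e1 e2 e3
    constructor
    · have : (profK z1.1 z1.2 r j : ℝ) ≤ profK z0.1 z0.2 q' j + d + 2 * a := by
        linarith [e1.1, e1.2, e2.1, e2.2, e3.1, e3.2]
      exact_mod_cast this
    · have : (profK z0.1 z0.2 q' j : ℝ) ≤ profK z1.1 z1.2 r j + d + 2 * a := by
        linarith [e1.1, e1.2, e2.1, e2.2, e3.1, e3.2]
      exact_mod_cast this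
  obtain ⟨a1, a2⟩ : K r () ≤ K q' () + d + 2 * a ∧ K q' () ≤ K r () + d + 2 * a := key 2
  have a3 : K (z1.1, z1.2, r) () ≤ K (z0.1, z0.2, q') () + d + 2 * a := (key 6).1
  have a4 : K (z0.1, z0.2, q') () ≤ K (z0, q') () + c6 := h6 (z0, q') ()
  have a5 : K (z1, r) () ≤ K (z1.1, z1.2, r) () + c7 := h7 (z1.1, z1.2, r) ()
  have a6 := h2 n z0 q' (by omega) (by omega) (by omega)
  omega

end Pool.Agent.H872R3.LP
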